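import Mathlib
import Pool.Agent.H44.PT.Blk
import Pool.Agent.H44.MB.Exp
import Pool.Agent.H44.MB.ChnB

/-!
# Malle's conjecture over large base fields for the groups `C₂ ^ Δ ⋊ H`, `Δ` a system of blocks of `H`

Let `X` be a finite group, `W ≤ V ≤ X` subgroups, `r = [V : W]`, and let `G` be the group
`C₂ ^ (X / V) ⋊ X` of all permutations `(x W, b) ↦ (h x W, a (x V) b)` of `X / W × {0, 1}`, where `h ∈ X`
and `a` is a function from `X / V` to the permutations of `{0, 1}`. In other words: if `H` is the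
transitive group `X` on `X / W` and `Δ` the system of blocks given by `V`, of size `r`, then
`G = C₂ ^ Δ ⋊ H`; for `r = 1` this is the wreath product `C₂ ≀ H`.

(1) Let `W ≤ U`, where `U` is core-free, of index `u`, and `u (u + 1) ≤ 3 [X : V]`. Then Q1 holds for `G`:
`ind(G) = r`, `β_K(G) = 1`, and `n_K(G, Z) ~ C Z ^ (1 / r)` over all number fields `K` which contain a
certain number field; over a given number field `K` the formula holds if and only if `X` is a Galois
group over `K`. The library has this with `16 u (u + 1) ≤ [X : V]` (for a twin of this problem), that is,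
with a constant `48` times as large. (2) More generally there can be several subgroups `U_i`, with
trivial intersection of their normal cores, and sets of points which are fixed only by elements of
`U_i`; here the exponents `e(n)` are universal, less than `(n + 1) / 2` and `O((log n) ^ 2)`. (3) For
`X = S_m`, where `W` fixes a point and `m (m + 1) ≤ 3 [S_m : V]`, the formula holds over all number
fields. For example `W = 1`, where `G = C₂ ^ (S_m / V) ⋊ S_m` acts on `S_m × {0, 1}`, for all subgroups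
`V` of `S_m` of index at least `m (m + 1) / 3`; `ind(G) = |V|`.

The proof. The fields with the group `G` are the composita `P F`, where the extension `P` has the group
`X`, acting on `X / W`, the subfield `M ⊆ P` corresponds to `V`, `[P : M] = r`, and `F` is a quadratic
extension of `M`; for fixed `P` and `M` their number is `~ c Z ^ (1 / r)` (library). New is the summation
over `P`: the number of all `F` with `|d_(PF)| ≤ Y ^ r d_P ^ 2` is at most
`C |d_M| ^ (1/2 + ε) |d_P| ^ ε Y`, where `C` depends only on `ε`, `r` and the degree of `M`, and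
`|d_M| ^ r ≤ |d_P|`; so the series converges if the number of extensions `P` with `|d_P| ≤ Z` is
`O(Z ^ A)`, `A < 3 / (2 r)`; for given `P` there are at most finitely many `M`, their number depends on
`X` only. For (1), `d_P` is at least the power `[U : W]` of the discriminant of the subfield of degree `u`
which corresponds to `U`, and we use the bounds for the number of all extensions of degree `u`
(Schmidt, Couveignes, Lemke Oliver-Thorne; library).

`PT/FIB` and `PT/GAL` were written by helper55.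
-/

set_option autoImplicit false

open Filter

namespace Pool.Agent.Results.MP_b39724_nt.BlockSystems

/-- The index of a permutation: `n` minus the number of its cycles, fixed points included. -/
def ind {n : ℕ} (g : Equiv.Perm (Fin n)) : ℕ := g.cycleType.sum - Multiset.card g.cycleType

/-- `ind(G)`: the minimum of the indices of the elements `g ≠ 1` of `G`. -/
noncomputable def minInd {n : ℕ} (G : Subgroup (Equiv.Perm (Fin n))) : ℕ :=
  sInf {j : ℕ | ∃ g ∈ G, g ≠ 1 ∧ j = ind g}

/-- `K`-conjugacy: `h` is conjugate in `G` to `g ^ a`, where some `σ` in the Galois group of `K` acts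
on the roots of unity of order dividing `|G|` by `ζ ↦ ζ ^ a`. -/
def KConj (K : Type) [Field K] {n : ℕ} (G : Subgroup (Equiv.Perm (Fin n))) (g h : G) : Prop :=
  ∃ (σ : AlgebraicClosure K ≃ₐ[K] AlgebraicClosure K) (a : ℕ) (x : G),
    (∀ ζ : AlgebraicClosure K, ζ ^ Nat.card G = 1 → σ ζ = ζ ^ a) ∧ h = x * g ^ a * x⁻¹

/-- `β_K(G)`: the number of `K`-conjugacy classes of elements of index `ind(G)`. -/
noncomputable def beta (K : Type) [Field K] {n : ℕ} (G : Subgroup (Equiv.Perm (Fin n))) : ℕ :=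
  Nat.card (Quot fun g h : {g : G // ind g.1 = minInd G} => KConj K G g.1 h.1)

/-- The small `G`-fields `L` over `K` with `d_L ≤ X`, inside the algebraic closure of `K`: the degree
is `n`, the Galois group acting on the `n` embeddings is `G` up to numbering, and the norm of the
relative discriminant is at most `X` (that is, `|disc L| ≤ X |disc K| ^ n`). -/
def Fields (K : Type) [Field K] [NumberField K] {n : ℕ} (G : Subgroup (Equiv.Perm (Fin n)))
    (X : ℝ) : Set (IntermediateField K (AlgebraicClosure K)) :=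
  {L | Module.finrank K L = n ∧
    (∃ e : (L →ₐ[K] AlgebraicClosure K) ≃ Fin n, ∀ π : Equiv.Perm (Fin n),
      π ∈ G ↔ ∃ σ : AlgebraicClosure K ≃ₐ[K] AlgebraicClosure K,
        ∀ φ : L →ₐ[K] AlgebraicClosure K, e (σ.toAlgHom.comp φ) = π (e φ)) ∧
    ∃ h : NumberField L,
      ((|@NumberField.discr L _ h| : ℤ) : ℝ) ≤ X * ((|NumberField.discr K| : ℤ) : ℝ) ^ n}

/-- `n_K(G, X)`: the number of small `G`-fields `L` over `K` with `d_L ≤ X`, up to
`K`-isomorphism. -/
noncomputable def count (K : Type) [Field K] [NumberField K] {n : ℕ}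
    (G : Subgroup (Equiv.Perm (Fin n))) (X : ℝ) : ℕ :=
  Nat.card (Quot fun L L' : Fields K G X => Nonempty (L.1 ≃ₐ[K] L'.1))

/-- The asymptotic formula of the problem over the number field `K`:
`n_K(G, X) ~ c X ^ (1 / ind(G)) (log X) ^ (β_K(G) - 1)` for some `c > 0`. -/
def Asymptotic (K : Type) [Field K] [NumberField K] {n : ℕ} (G : Subgroup (Equiv.Perm (Fin n))) :
    Prop :=
  ∃ c : ℝ, 0 < c ∧ Tendsto (fun X : ℝ => (count K G X : ℝ) /
    (X ^ (1 / (minInd G : ℝ)) * Real.log X ^ (beta K G - 1))) atTop (nhds c)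

/-- Q1 for the group `G`: there is a number field `K₀` such that the asymptotic formula holds over
every number field `K` containing `K₀`. -/
def LargeBase {n : ℕ} (G : Subgroup (Equiv.Perm (Fin n))) : Prop :=
  ∃ (K₀ : Type) (_ : Field K₀) (_ : NumberField K₀), ∀ (K : Type) [Field K] [NumberField K]
    [Algebra K₀ K], Asymptotic K G

/-- The finite group `X` is the Galois group of a finite Galois extension of `K`. -/
def Realizable (K X : Type) [Field K] [Group X] : Prop :=
  ∃ (L : Type) (_ : Field L) (_ : Algebra K L) (_ : FiniteDimensional K L) (_ : IsGalois K L),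
    Nonempty (X ≃* (L ≃ₐ[K] L))

/-- `G` is transitive. -/
def Transitive {n : ℕ} (G : Subgroup (Equiv.Perm (Fin n))) : Prop := ∀ i j, ∃ g ∈ G, g i = j

/-- `G ≤ S_n` is, up to numbering, the group `C₂ ^ (X / V) ⋊ X` on `X / W × {0, 1}`, `W ≤ V ≤ X`: the
group of all permutations `(x W, b) ↦ (h x W, a (x V) b)`, where `h ∈ X` and `a` is a function from
`X / V` to the permutations of `{0, 1}`. -/
def IsPartialWreath {X : Type} [Group X] (V W : Subgroup X) {n : ℕ}
    (G : Subgroup (Equiv.Perm (Fin n))) : Prop :=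
  ∃ f : Fin n ≃ (X ⧸ W) × Bool, ∀ π : Equiv.Perm (Fin n), π ∈ G ↔
    ∃ (h : X) (a : X ⧸ V → Equiv.Perm Bool), ∀ (i : Fin n) (x : X), (f i).1 = (x : X ⧸ W) →
      f (π i) = (((h * x : X) : X ⧸ W), a (x : X ⧸ V) (f i).2)

/-- The condition in terms of several subgroups `U_i` with trivial intersection of the normal cores, and
nonempty sets `B_i` of points such that only elements of `U_i` fix all points in `B_i`:
`∑ e(u_i) u_i |B_i| < a |P|`, `u_i = [X : U_i]`. -/
def Few (e : ℕ → ℝ) (a : ℝ) (X P : Type) [Group X] [MulAction X P] : Prop :=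
  ∃ (r : ℕ) (U : Fin r → Subgroup X) (B : Fin r → Finset P),
    (⨅ i, (U i).normalCore = ⊥) ∧ (∀ i, (B i).Nonempty) ∧
    (∀ i, ∀ γ : X, (∀ x ∈ B i, γ • x = x) → γ ∈ U i) ∧
    ∑ i, e (U i).index * (U i).index * (B i).card < a * Nat.card P

/-- Q1 holds for `G`, `ind(G) = r`, `β_K(G) = 1` for all number fields `K`, and over each number field
`K` the formula for `G` holds if and only if `X` is a Galois group over `K`. -/
def SolvedBy {n : ℕ} (G : Subgroup (Equiv.Perm (Fin n))) (r : ℕ) (X : Type) [Group X] : Prop :=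
  LargeBase G ∧ minInd G = r ∧ ∀ (K : Type) [Field K] [NumberField K],
    beta K G = 1 ∧ (Asymptotic K G ↔ Realizable K X)

section proof

open Pool.Agent.NH85.ML (Good img IsWrP)
open Pool.Agent.H44.MB

variable {n : ℕ} {G : Subgroup (Equiv.Perm (Fin n))}

/-- The elements of minimal index `r` are conjugate. -/
structure Consts (G : Subgroup (Equiv.Perm (Fin n))) (r : ℕ) : Prop where
  least : IsLeast {j : ℕ | ∃ g ∈ G, g ≠ 1 ∧ j = g.cycleType.sum - Multiset.card g.cycleType} r
  conj : ∀ g ∈ G, ∀ h ∈ G, g.cycleType.sum - Multiset.card g.cycleType = r →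
      h.cycleType.sum - Multiset.card h.cycleType = r → ∃ x ∈ G, h = x * g * x⁻¹

theorem Consts.minInd_eq {r : ℕ} (h : Consts G r) : minInd G = r := h.least.csInf_eq

theorem Consts.beta_eq {r : ℕ} (h : Consts G r) (K : Type) [Field K] : beta K G = 1 := by
  have h1 := h.minInd_eq
  rw [beta, Nat.card_eq_one_iff_unique]
  constructor
  · constructor
    intro a b
    obtain ⟨a, rfl⟩ := Quot.exists_rep a
    obtain ⟨b, rfl⟩ := Quot.exists_rep b
    apply Quot.sound
    obtain ⟨x, hx, hx1⟩ := h.conj a.1.1 a.1.2 b.1.1 b.1.2 (a.2.trans h1) (b.2.trans h1)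
    refine ⟨AlgEquiv.refl, 1, ⟨x, hx⟩, fun ζ _ => by simp, ?_⟩
    rw [pow_one]
    exact Subtype.ext hx1
  · obtain ⟨g, hg, -, hg1⟩ := h.least.1
    exact ⟨Quot.mk _ ⟨⟨g, hg⟩, hg1.symm.trans h1.symm⟩⟩

theorem Consts.asymptotic_iff {r : ℕ} (h : Consts G r) (K : Type) [Field K] [NumberField K] :
    Asymptotic K G ↔ ∃ c : ℝ, 0 < c ∧
      Tendsto (fun X : ℝ => (count K G X : ℝ) / X ^ (1 / (r : ℝ))) atTop (nhds c) := by
  unfold Asymptotic
  rw [h.minInd_eq, h.beta_eq K]
  simp

theorem nonempty_of_pos (K : Type) [Field K] [NumberField K] {X : ℝ} (h : 0 < count K G X) :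
    (Fields K G X).Nonempty := by
  have h3 : Nonempty (Quot fun L L' : Fields K G X => Nonempty (L.1 ≃ₐ[K] L'.1)) :=
    (Nat.card_pos_iff.1 h).1
  obtain ⟨q⟩ := h3
  obtain ⟨⟨L, hL⟩, -⟩ := Quot.exists_rep q
  exact ⟨L, hL⟩

theorem nonempty_of_asymp (K : Type) [Field K] [NumberField K] (h : Asymptotic K G) :
    ∃ X : ℝ, (Fields K G X).Nonempty := by
  obtain ⟨c, hc, hlim⟩ := h
  obtain ⟨X, hX⟩ := (hlim.eventually (lt_mem_nhds hc)).exists
  refine ⟨X, nonempty_of_pos K (Nat.pos_of_ne_zero fun h0 => ?_)⟩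
  rw [h0] at hX
  simp at hX

theorem real_gal (K : Type) [Field K] [NumberField K] (Γ : Type) [Group Γ] :
    Realizable K Γ ↔ (Pool.Agent.TH444.ML.Gal K (AlgebraicClosure K) Γ).Nonempty :=
  Pool.Agent.Q24.ML.real_iff K (AlgebraicClosure K) Γ

/-- the constants -/
theorem consts_of {X : Type} [Group X] [Finite X]
    {V W : Subgroup X} (hyp : Pool.Agent.W5h46.MW.Hyp V W) (hG : IsPartialWreath V W G) :
    Consts G (W.relIndex V) := by
  have hG' : Pool.Agent.W5h46.MW.IsC2W V W G := hG
  have h := Pool.Agent.W5h46.MW.index_W hyp hG'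
  simp only [Pool.Agent.H44.PT.ind_conv] at h
  refine ⟨⟨?_, ?_⟩, h.2⟩
  · obtain ⟨g, hg, hg1, hg2⟩ := h.1.1
    exact ⟨g, hg, hg1, hg2.symm⟩
  · rintro j ⟨g, hg, hg1, rfl⟩
    exact h.1.2 ⟨g, hg, hg1, rfl⟩

/-- the criterion for few extensions with the group `X` on `X / W` -/
theorem few_main {e : ℕ → ℝ} (he : BoundE e) {X : Type} [Group X] [Finite X]
    {V W : Subgroup X} (hyp : Pool.Agent.W5h46.MW.Hyp V W)
    (hfew : FewA e (3 / (2 * (W.relIndex V : ℝ))) X (X ⧸ W))
    (hG : IsPartialWreath V W G) : SolvedBy G (W.relIndex V) X := by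
  have hc : Consts G (W.relIndex V) := consts_of hyp hG
  have hasy : ∀ (K : Type) [Field K] [NumberField K], Realizable K X → Asymptotic K G := by
    intro K _ _ hK
    exact (hc.asymptotic_iff K).2
      (Pool.Agent.H44.PT.few_crit K X V W hyp he hfew ((real_gal K X).1 hK) hG)
  refine ⟨?_, hc.minInd_eq, fun K _ _ => ⟨hc.beta_eq K, fun h => ?_, hasy K⟩⟩
  · obtain ⟨K₀, i1, i2, hK₀⟩ := Pool.Agent.Q248.ML.exists_base X
    exact ⟨K₀, i1, i2, fun K _ _ _ => hasy K (hK₀ K)⟩
  · obtain ⟨B, L, hL⟩ := nonempty_of_asymp K h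
    obtain ⟨M, hM⟩ := Pool.Agent.H44.PT.gal_of_cntE K X V W hyp hG hL
    exact (real_gal K X).2 ⟨M, hM⟩

/-- existence -/
theorem exists_partial {X : Type} [Group X] [Finite X] (V W : Subgroup X) :
    ∃ (n : ℕ) (G : Subgroup (Equiv.Perm (Fin n))), IsPartialWreath V W G := by
  have hcard : Nat.card ((X ⧸ W) × Bool) = Nat.card ((X ⧸ W) × Bool) := rfl
  let f : Fin (Nat.card ((X ⧸ W) × Bool)) ≃ (X ⧸ W) × Bool :=
    (Finite.equivFinOfCardEq hcard).symm
  refine ⟨_, {
    carrier := {π | ∃ (h : X) (a : X ⧸ V → Equiv.Perm Bool), ∀ (i : Fin _) (x : X),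
      (f i).1 = (x : X ⧸ W) → f (π i) = (((h * x : X) : X ⧸ W), a (x : X ⧸ V) (f i).2)}
    mul_mem' := ?_
    one_mem' := ⟨1, fun _ => 1, fun i x hx => by
      rw [one_mul, ← hx]
      rfl⟩
    inv_mem' := ?_ }, f, fun π => Iff.rfl⟩
  · rintro π π' ⟨h, a, H⟩ ⟨h', a', H'⟩
    refine ⟨h * h', fun q => a (h' • q) * a' q, fun i x hx => ?_⟩
    have h1 := H' i x hx
    have h2 := H (π' i) (h' * x) (by rw [h1])
    rw [Equiv.Perm.mul_apply, h2, h1, mul_assoc]
    rfl
  · rintro π ⟨h, a, H⟩
    refine ⟨h⁻¹, fun q => (a (h⁻¹ • q))⁻¹, fun i x hx => ?_⟩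
    obtain ⟨y, hy⟩ := QuotientGroup.mk_surjective (f (π⁻¹ i)).1
    have e1 : π (π⁻¹ i) = i := π.apply_symm_apply i
    have h1 := H (π⁻¹ i) y hy.symm
    rw [e1] at h1
    have h2 : (f (π⁻¹ i)).1 = ((h⁻¹ * x : X) : X ⧸ W) := by
      have h3 : ((h * y : X) : X ⧸ W) = (x : X ⧸ W) := by
        rw [← hx, h1]
      have h4 : h⁻¹ • (((h * y : X) : X) : X ⧸ W) = h⁻¹ • ((x : X) : X ⧸ W) := by rw [h3]
      rw [← hy]
      have h5 : h⁻¹ • (((h * y : X) : X) : X ⧸ W) = (((h⁻¹ * (h * y) : X)) : X ⧸ W) := rfl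
      rw [h5, inv_mul_cancel_left] at h4
      exact h4
    have h3 := H (π⁻¹ i) (h⁻¹ * x) h2
    rw [e1] at h3
    refine Prod.ext h2 ?_
    have h4 : (f i).2 = a (((h⁻¹ * x : X)) : X ⧸ V) (f (π⁻¹ i)).2 := by rw [h3]
    change _ = (a (((h⁻¹ * x : X)) : X ⧸ V))⁻¹ (f i).2
    rw [h4]
    exact ((a _).symm_apply_apply _).symm

theorem partial_data {X : Type} [Group X] [Finite X] {V W : Subgroup X}
    (hG : IsPartialWreath V W G) : n = 2 * W.index ∧ Transitive G := by
  obtain ⟨f, hf⟩ := hG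
  constructor
  · have h1 := Nat.card_congr f
    rw [Nat.card_fin, Nat.card_prod] at h1
    rw [h1, mul_comm]
    simp [Subgroup.index]
  · intro i j
    obtain ⟨x, hx⟩ := QuotientGroup.mk_surjective (f i).1
    obtain ⟨y, hy⟩ := QuotientGroup.mk_surjective (f j).1
    obtain ⟨τ, hτ⟩ : ∃ τ : Equiv.Perm Bool, τ (f i).2 = (f j).2 :=
      ⟨Equiv.swap (f i).2 (f j).2, Equiv.swap_apply_left _ _⟩
    refine ⟨f.symm.permCongr ((MulAction.toPerm (y * x⁻¹)).prodCongr τ), (hf _).2
      ⟨y * x⁻¹, fun _ => τ, fun i x hx => ?_⟩, ?_⟩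
    · simp only [Equiv.permCongr_apply, Equiv.symm_symm, Equiv.apply_symm_apply]
      refine Prod.ext ?_ rfl
      change (y * _⁻¹) • (f i).1 = _
      rw [hx]
      rfl
    · rw [Equiv.permCongr_apply, Equiv.symm_symm, Equiv.symm_apply_eq]
      refine Prod.ext ?_ hτ
      change (y * x⁻¹) • (f i).1 = (f j).1
      rw [← hx, ← hy]
      change (((y * x⁻¹ * x : X)) : X ⧸ W) = _
      rw [inv_mul_cancel_right]

theorem core_stab {m : ℕ} (i : Fin m) :
    (MulAction.stabilizer (Equiv.Perm (Fin m)) i).normalCore = ⊥ := by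
  rw [eq_bot_iff]
  intro x hx
  rw [Subgroup.mem_bot]
  ext1 j
  have h1 : Equiv.swap i j * x * (Equiv.swap i j)⁻¹ ∈ MulAction.stabilizer (Equiv.Perm (Fin m)) i :=
    hx (Equiv.swap i j)
  rw [MulAction.mem_stabilizer_iff] at h1
  have h2 : (Equiv.swap i j) (x ((Equiv.swap i j)⁻¹ i)) = i := h1
  rw [Equiv.swap_inv, Equiv.swap_apply_left] at h2
  have h3 := congrArg (Equiv.swap i j) h2
  rw [Equiv.swap_apply_self, Equiv.swap_apply_left] at h3
  exact h3

theorem index_stab {m : ℕ} (i : Fin m) :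
    (MulAction.stabilizer (Equiv.Perm (Fin m)) i).index = m := by
  rw [MulAction.index_stabilizer]
  have h1 : MulAction.orbit (Equiv.Perm (Fin m)) i = Set.univ := by
    rw [Set.eq_univ_iff_forall]
    intro j
    exact ⟨Equiv.swap i j, Equiv.swap_apply_left i j⟩
  rw [h1, Set.ncard_univ, Nat.card_fin]

end proof

end Pool.Agent.Results.MP_b39724_nt.BlockSystems

open Pool.Agent.Results.MP_b39724_nt.BlockSystems in
/-- (1) The criterion for `G = C₂ ^ (X / V) ⋊ X` on `X / W × {0, 1}` in terms of one subgroup `U ≥ W`;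
(2) the same in terms of several subgroups, with universal exponents `e(n)`; (3) `X = S_m`, over all
number fields; (4) existence, degree and transitivity of `G`. -/
theorem Pool.Agent.Results.MP_b39724_nt.BlockSystems.result :
    -- (1) one subgroup
    (∀ (X : Type) [Group X] [Finite X] (V W U : Subgroup X), W ≤ V → W ≤ U → U.normalCore = ⊥ →
      U.index * (U.index + 1) ≤ 3 * V.index →
      ∀ (n : ℕ) (G : Subgroup (Equiv.Perm (Fin n))), IsPartialWreath V W G →
        SolvedBy G (W.relIndex V) X) ∧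
    -- (2) several subgroups
    (∃ e : ℕ → ℝ, e 1 = 0 ∧
      (∀ n : ℕ, 2 ≤ n → e n ≤ ((n : ℝ) + 2) * (n - 1) / (4 * (n - (n / n.minFac : ℕ)))) ∧
      (∀ c : ℝ, 1 / (8 * (Real.log 2) ^ 2) < c → ∀ᶠ n : ℕ in atTop, e n ≤ c * (Real.log n) ^ 2) ∧
      ∀ (X : Type) [Group X] [Finite X] (V W : Subgroup X), W ≤ V →
        (∀ g : X, g ≠ 1 → W.relIndex V < {q : X ⧸ W | g • q ≠ q}.ncard) →
        Few e (3 / (2 * (W.relIndex V : ℝ))) X (X ⧸ W) →
        ∀ (n : ℕ) (G : Subgroup (Equiv.Perm (Fin n))), IsPartialWreath V W G →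
          SolvedBy G (W.relIndex V) X) ∧
    -- (3) symmetric groups, all number fields
    (∀ (m : ℕ) (i : Fin m) (V W : Subgroup (Equiv.Perm (Fin m))), 3 ≤ m → W ≤ V →
      (∀ w ∈ W, w i = i) → m * (m + 1) ≤ 3 * V.index →
      ∀ (n : ℕ) (G : Subgroup (Equiv.Perm (Fin n))), IsPartialWreath V W G →
        ∀ (K : Type) [Field K] [NumberField K], Asymptotic K G) ∧
    -- (4) existence
    (∀ (X : Type) [Group X] [Finite X] (V W : Subgroup X),
      (∃ (n : ℕ) (G : Subgroup (Equiv.Perm (Fin n))), IsPartialWreath V W G) ∧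
      ∀ (n : ℕ) (G : Subgroup (Equiv.Perm (Fin n))), IsPartialWreath V W G →
        n = 2 * W.index ∧ Transitive G) := by
  obtain ⟨e, he, he1, heS, helog⟩ := Pool.Agent.H44.MB.exists_eU
  have he0 := he.bound
  have he' : ∀ {n : ℕ}, 1 ≤ n → e n < (n + 1) / 2 := fun hn => Pool.Agent.H44.MB.e_lt he1 heS hn
  have h1 : ∀ (X : Type) [Group X] [Finite X] (V W U : Subgroup X), W ≤ V → W ≤ U →
      U.normalCore = ⊥ → U.index * (U.index + 1) ≤ 3 * V.index →
      ∀ (n : ℕ) (G : Subgroup (Equiv.Perm (Fin n))), IsPartialWreath V W G →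
        SolvedBy G (W.relIndex V) X := by
    intro X _ _ V W U hWV hWU hU hc n G hG
    exact few_main he0 (Pool.Agent.H44.PT.hyp_of_U V W U hWV hWU hU hc)
      (Pool.Agent.H44.PT.few_of_U he0.1 he' V W U hWV hWU hU hc) hG
  refine ⟨h1, ⟨e, he1, fun n hn => ?_, helog, ?_⟩, ?_, ?_⟩
  · have h2 := heS n hn
    have h3 : Pool.Agent.W222.UABC.eS n =
        ((n : ℝ) + 2) * (n - 1) / (4 * (n - (n / n.minFac : ℕ))) := by
      unfold Pool.Agent.W222.UABC.eS
      have h4 : n / n.minFac ≤ n := Nat.div_le_self _ _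
      rw [Nat.cast_mul, Nat.cast_sub h4, Nat.cast_sub (by omega : 1 ≤ n)]
      push_cast
      ring
    rw [← h3]
    exact h2
  · intro X _ _ V W hWV hmv hfew n G hG
    exact few_main he0 ⟨hWV, hmv⟩ hfew hG
  · intro m i V W hm hWV hW hc n G hG K _ _
    have h := h1 (Equiv.Perm (Fin m)) V W (MulAction.stabilizer (Equiv.Perm (Fin m)) i) hWV
      (fun w hw => hW w hw) (core_stab i) (by rw [index_stab]; exact hc) n G hG
    exact (h.2.2 K).2.2 (Pool.Agent.H44.MB.real_sym K m hm)
  · intro X _ _ V W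
    exact ⟨exists_partial V W, fun n G hG => partial_data hG⟩
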