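import Mathlib
import Pool.Agent.H44.PT.Sym
import Pool.Agent.H44.MB.Exp
import Pool.Agent.H44.MB.ChnB
import Pool.Graph.R_pool_sql_team_seeded_9f66d723.W5h46.MW.X

/-!
# Malle's conjecture over large base fields: products of towers with every transitive group

Let `T = C₂ ≀ (C₂ ≀ ⋯ ≀ (C₂ ≀ Γ))` be the tower with `j ≥ 1` factors `C₂` over ANY transitive group `Γ`
of degree `m`, let `Y ≤ S_k` be ANY transitive group, and let `G = T × Y` in product action, of degree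
`2 ^ j m k`. If `k (k + 1) ≤ 2 ^ (j - 1) m` and `m ^ 2 + k (k + 1) ≤ 2 ^ j m` (for example, if
`2 ^ (j - 1)` is at least `m` and at least `k (k + 1) / m`), then Q1 holds for `G`: `ind(G) = k`,
`β_K(G) = 1`, and `n_K(G, X) ~ C X ^ (1 / k)` over all number fields `K` which contain a certain number
field; over a given number field `K` the formula holds if and only if `G`, or equivalently `Γ × Y`, is a
Galois group over `K`. For `Γ = 1` the group `T` is the iterated wreath product of `j` groups `C₂`, a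
`2`-group of degree `2 ^ j`, so every transitive group `Y` of degree `k` is a direct factor of such a
group `G = T × Y`, `k (k + 1) ≤ 2 ^ (j - 1)`, and the formula for `G` over `K` holds if and only if `Y`
is a Galois group over `K`. It holds over all number fields if `Y` is abelian or `Y = S_k`; also for
`Γ = S_m` and abelian `Y`.

If the asymptotic formula is known for `Y`, then `m ≤ 2 ^ (j - 1)`, `2 k < 2 ^ (j - 1) m ind(Y)` (and
`k < 2 ^ j m`) is enough. The set of groups for which Q1 holds is closed under the following operations: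
(a) `H ≤ S_m`, `Y ≤ S_k` (any transitive group) to `(C₂ ≀ H) × Y`, if
`1 / ind(H) + k (k + 1) / (2 m) ≤ 3 / 2`, for example if `k (k + 1) ≤ m`;
(b) `H ≤ S_m`, `Y ≤ S_k` to `(C₂ ≀ H) × Y`, if `k < 2 m` and `1 / ind(H) + k / (m ind(Y)) < 3 / 2`, for
example if `2 k < m`. Over a given number field it is enough that the number of extensions with the group
`H` (and `Y`) has bounded growth.

The proof. As in `BlockSystems`: for a finite group `X` and subgroups `W ≤ V`, `r = [V : W]`, the fields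
with the group `C₂ ^ (X / V) ⋊ X` are the composita `P F`, where the extension `P` has the group `X`,
acting on `X / W`, the subfield `M ⊆ P` corresponds to `V`, and `F` is a quadratic extension of `M`, and
the sum over `P`, `M` converges if the number of pairs `(P, M)` with `|d_P| ≤ Z` is `O(Z ^ A)`,
`A < 3 / (2 r)`. For the product `(C₂ ≀ H) × Y` we have `X = H × Y`, `r = k`, `P` is the compositum of an
extension `M` with the group `H` and one with the group `Y`, and `A = A(H) / k + A(Y) / m`; for arbitrary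
`Y` we take the bounds for the number of all extensions of degree `k`, where `A(Y) < (k + 1) / 2`. In a
tower over an arbitrary group `A(H)` tends to `1`, as in `TowersOverAnyGroup`.

Written with helper55 (the pairs `(P, M)` for products, `PT/GAL`, `PT/FIB`, `PT/PROD`), helper73
(`PT/GLUE`) and helper63 (`PT/SPL`).
-/

set_option autoImplicit false

open Filter

namespace Pool.Agent.Results.MP_b39724_nt.ProductsWithTowers

/-- The index of a permutation: `n` minus the number of its cycles, fixed points included. -/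
def ind {n : ℕ} (g : Equiv.Perm (Fin n)) : ℕ := g.cycleType.sum - Multiset.card g.cycleType

/-- `ind(G)`: the minimum of the indices of the elements `g ≠ 1` of `G`. -/
noncomputable def minInd {n : ℕ} (G : Subgroup (Equiv.Perm (Fin n))) : ℕ :=
  sInf {j : ℕ | ∃ g ∈ G, g ≠ 1 ∧ j = ind g}

/-- `K`-conjugacy: `h` is conjugate in `G` to `g ^ a`, where some `σ` in the Galois group of `K` acts
on the roots of unity of order dividing `|G|` by `ζ ↦ ζ ^ a`. -/
def KConj (K : Type) [Field K] {n : ℕ} (G : Subgroup (Equiv.Perm (Fin n))) (g h : G) : Prop :=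
  ∃ (σ : AlgebraicClosure K ≃ₐ[K] AlgebraicClosure K) (a : ℕ) (x : G),
    (∀ ζ : AlgebraicClosure K, ζ ^ Nat.card G = 1 → σ ζ = ζ ^ a) ∧ h = x * g ^ a * x⁻¹

/-- `β_K(G)`: the number of `K`-conjugacy classes of elements of index `ind(G)`. -/
noncomputable def beta (K : Type) [Field K] {n : ℕ} (G : Subgroup (Equiv.Perm (Fin n))) : ℕ :=
  Nat.card (Quot fun g h : {g : G // ind g.1 = minInd G} => KConj K G g.1 h.1)

/-- The small `G`-fields `L` over `K` with `d_L ≤ X`, inside the algebraic closure of `K`: the degree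
is `n`, the Galois group acting on the `n` embeddings is `G` up to numbering, and the norm of the
relative discriminant is at most `X` (that is, `|disc L| ≤ X |disc K| ^ n`). -/
def Fields (K : Type) [Field K] [NumberField K] {n : ℕ} (G : Subgroup (Equiv.Perm (Fin n)))
    (X : ℝ) : Set (IntermediateField K (AlgebraicClosure K)) :=
  {L | Module.finrank K L = n ∧
    (∃ e : (L →ₐ[K] AlgebraicClosure K) ≃ Fin n, ∀ π : Equiv.Perm (Fin n),
      π ∈ G ↔ ∃ σ : AlgebraicClosure K ≃ₐ[K] AlgebraicClosure K,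
        ∀ φ : L →ₐ[K] AlgebraicClosure K, e (σ.toAlgHom.comp φ) = π (e φ)) ∧
    ∃ h : NumberField L,
      ((|@NumberField.discr L _ h| : ℤ) : ℝ) ≤ X * ((|NumberField.discr K| : ℤ) : ℝ) ^ n}

/-- `n_K(G, X)`: the number of small `G`-fields `L` over `K` with `d_L ≤ X`, up to
`K`-isomorphism. -/
noncomputable def count (K : Type) [Field K] [NumberField K] {n : ℕ}
    (G : Subgroup (Equiv.Perm (Fin n))) (X : ℝ) : ℕ :=
  Nat.card (Quot fun L L' : Fields K G X => Nonempty (L.1 ≃ₐ[K] L'.1))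

/-- The asymptotic formula of the problem over the number field `K`:
`n_K(G, X) ~ c X ^ (1 / ind(G)) (log X) ^ (β_K(G) - 1)` for some `c > 0`. -/
def Asymptotic (K : Type) [Field K] [NumberField K] {n : ℕ} (G : Subgroup (Equiv.Perm (Fin n))) :
    Prop :=
  ∃ c : ℝ, 0 < c ∧ Tendsto (fun X : ℝ => (count K G X : ℝ) /
    (X ^ (1 / (minInd G : ℝ)) * Real.log X ^ (beta K G - 1))) atTop (nhds c)

/-- Q1 for the group `G`: there is a number field `K₀` such that the asymptotic formula holds over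
every number field `K` containing `K₀`. -/
def LargeBase {n : ℕ} (G : Subgroup (Equiv.Perm (Fin n))) : Prop :=
  ∃ (K₀ : Type) (_ : Field K₀) (_ : NumberField K₀), ∀ (K : Type) [Field K] [NumberField K]
    [Algebra K₀ K], Asymptotic K G

/-- The finite group `X` is the Galois group of a finite Galois extension of `K`. -/
def Realizable (K X : Type) [Field K] [Group X] : Prop :=
  ∃ (L : Type) (_ : Field L) (_ : Algebra K L) (_ : FiniteDimensional K L) (_ : IsGalois K L),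
    Nonempty (X ≃* (L ≃ₐ[K] L))

/-- `G` is transitive. -/
def Transitive {n : ℕ} (G : Subgroup (Equiv.Perm (Fin n))) : Prop := ∀ i j, ∃ g ∈ G, g i = j

/-- `G ≤ S_n` is, up to numbering, the group of all permutations `act γ` of `P`, `γ ∈ Γ`. -/
def IsAction {Γ P : Type} (act : Γ → P → P) {n : ℕ} (G : Subgroup (Equiv.Perm (Fin n))) : Prop :=
  ∃ f : Fin n ≃ P, ∀ π : Equiv.Perm (Fin n), π ∈ G ↔ ∃ γ : Γ, ∀ i, f (π i) = act γ (f i)

/-- `G ≤ S_n` is, up to numbering, the wreath product `C₂ ≀ H` of `H ≤ S_m`: the group of all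
permutations of `{1, ..., m} × {0, 1}` for which there is `h ∈ H` such that they map the block
`{x} × {0, 1}` to `{h x} × {0, 1}`, for all `x`. -/
def IsC2Wr {m : ℕ} (H : Subgroup (Equiv.Perm (Fin m))) {n : ℕ} (G : Subgroup (Equiv.Perm (Fin n))) :
    Prop :=
  ∃ f : Fin n ≃ Fin m × Bool, ∀ π : Equiv.Perm (Fin n), π ∈ G ↔
    ∃ h ∈ H, ∀ i, (f (π i)).1 = h (f i).1

/-- `G` is the iterated wreath product `C₂ ≀ (C₂ ≀ ⋯ ≀ (C₂ ≀ Γ))` with `j` factors `C₂`, where `Γ` acts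
on `P` by `act`; its degree is `2 ^ j |P|`. -/
def IsTower {Γ P : Type} (act : Γ → P → P) :
    ℕ → ∀ {n : ℕ}, Subgroup (Equiv.Perm (Fin n)) → Prop
  | 0, _, G => IsAction act G
  | j + 1, _, G => ∃ (m : ℕ) (H : Subgroup (Equiv.Perm (Fin m))), IsTower act j H ∧ IsC2Wr H G

/-- `G ≤ S_n` is, up to numbering, the direct product `G₁ × G₂` of `G₁ ≤ S_(n₁)` and `G₂ ≤ S_(n₂)` in
product action on `{1, ..., n₁} × {1, ..., n₂}`. -/
def IsProduct {n₁ n₂ : ℕ} (G₁ : Subgroup (Equiv.Perm (Fin n₁))) (G₂ : Subgroup (Equiv.Perm (Fin n₂)))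
    {n : ℕ} (G : Subgroup (Equiv.Perm (Fin n))) : Prop :=
  ∃ f : Fin n ≃ Fin n₁ × Fin n₂, ∀ π : Equiv.Perm (Fin n), π ∈ G ↔
    ∃ g₁ ∈ G₁, ∃ g₂ ∈ G₂, ∀ i, f (π i) = (g₁ (f i).1, g₂ (f i).2)

/-- `ind(G) = r`, `β_K(G) = 1`, and the formula for `G` holds over the number field `K` if and only if
`G`, or equivalently `Γ`, is a Galois group over `K`. -/
def SolvedOver (K : Type) [Field K] [NumberField K] {n : ℕ} (G : Subgroup (Equiv.Perm (Fin n)))
    (r : ℕ) (Γ : Type) [Group Γ] : Prop :=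
  minInd G = r ∧ beta K G = 1 ∧ (Asymptotic K G ↔ Realizable K Γ) ∧ (Realizable K G ↔ Realizable K Γ)

/-- Q1 holds for `G`, `ind(G) = r`, `β_K(G) = 1` for all number fields `K`, and over each number field
`K` the formula for `G` holds if and only if `G`, or equivalently `Γ`, is a Galois group over `K`. -/
def SolvedBy {n : ℕ} (G : Subgroup (Equiv.Perm (Fin n))) (r : ℕ) (Γ : Type) [Group Γ] : Prop :=
  LargeBase G ∧ ∀ (K : Type) [Field K] [NumberField K], SolvedOver K G r Γ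

section proof

open Pool.Agent.NH85.ML (Good img IsWrP)
open Pool.Agent.H44.MB

variable {n : ℕ} {G : Subgroup (Equiv.Perm (Fin n))}

/-- The elements of minimal index `r` are conjugate. -/
structure Consts (G : Subgroup (Equiv.Perm (Fin n))) (r : ℕ) : Prop where
  least : IsLeast {j : ℕ | ∃ g ∈ G, g ≠ 1 ∧ j = g.cycleType.sum - Multiset.card g.cycleType} r
  conj : ∀ g ∈ G, ∀ h ∈ G, g.cycleType.sum - Multiset.card g.cycleType = r →
      h.cycleType.sum - Multiset.card h.cycleType = r → ∃ x ∈ G, h = x * g * x⁻¹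

theorem Consts.minInd_eq {r : ℕ} (h : Consts G r) : minInd G = r := h.least.csInf_eq

theorem Consts.beta_eq {r : ℕ} (h : Consts G r) (K : Type) [Field K] : beta K G = 1 := by
  have h1 := h.minInd_eq
  rw [beta, Nat.card_eq_one_iff_unique]
  constructor
  · constructor
    intro a b
    obtain ⟨a, rfl⟩ := Quot.exists_rep a
    obtain ⟨b, rfl⟩ := Quot.exists_rep b
    apply Quot.sound
    obtain ⟨x, hx, hx1⟩ := h.conj a.1.1 a.1.2 b.1.1 b.1.2 (a.2.trans h1) (b.2.trans h1)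
    refine ⟨AlgEquiv.refl, 1, ⟨x, hx⟩, fun ζ _ => by simp, ?_⟩
    rw [pow_one]
    exact Subtype.ext hx1
  · obtain ⟨g, hg, -, hg1⟩ := h.least.1
    exact ⟨Quot.mk _ ⟨⟨g, hg⟩, hg1.symm.trans h1.symm⟩⟩

theorem Consts.asymptotic_iff {r : ℕ} (h : Consts G r) (K : Type) [Field K] [NumberField K] :
    Asymptotic K G ↔ ∃ c : ℝ, 0 < c ∧
      Tendsto (fun X : ℝ => (count K G X : ℝ) / X ^ (1 / (r : ℝ))) atTop (nhds c) := by
  unfold Asymptotic
  rw [h.minInd_eq, h.beta_eq K]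
  simp

theorem nonempty_of_pos (K : Type) [Field K] [NumberField K] {X : ℝ} (h : 0 < count K G X) :
    (Fields K G X).Nonempty := by
  have h3 : Nonempty (Quot fun L L' : Fields K G X => Nonempty (L.1 ≃ₐ[K] L'.1)) :=
    (Nat.card_pos_iff.1 h).1
  obtain ⟨q⟩ := h3
  obtain ⟨⟨L, hL⟩, -⟩ := Quot.exists_rep q
  exact ⟨L, hL⟩

theorem nonempty_of_asymp (K : Type) [Field K] [NumberField K] (h : Asymptotic K G) :
    ∃ X : ℝ, (Fields K G X).Nonempty := by
  obtain ⟨c, hc, hlim⟩ := h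
  obtain ⟨X, hX⟩ := (hlim.eventually (lt_mem_nhds hc)).exists
  refine ⟨X, nonempty_of_pos K (Nat.pos_of_ne_zero fun h0 => ?_)⟩
  rw [h0] at hX
  simp at hX

theorem real_gal (K : Type) [Field K] [NumberField K] (Γ : Type) [Group Γ] :
    Realizable K Γ ↔ (Pool.Agent.TH444.ML.Gal K (AlgebraicClosure K) Γ).Nonempty :=
  Pool.Agent.Q24.ML.real_iff K (AlgebraicClosure K) Γ

theorem pretrans {m : ℕ} {H : Subgroup (Equiv.Perm (Fin m))} (hH : Transitive H) :
    MulAction.IsPretransitive H (Fin m) := ⟨fun x y => by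
    obtain ⟨h, hh, h1⟩ := hH x y
    exact ⟨⟨h, hh⟩, h1⟩⟩

theorem trans_of_good (K : Type) [Field K] [NumberField K] {m : ℕ}
    {H : Subgroup (Equiv.Perm (Fin m))} {A : ℝ} (h : Good K H A) : Transitive H := by
  have h1 := trans_of_galX K H h.ne
  intro x y
  obtain ⟨g, hg⟩ := MulAction.exists_smul_eq H x y
  exact ⟨g.1, g.2, hg⟩

/-- the groups in a tower -/
theorem tower_data {Γ P : Type} [Group Γ] [MulAction Γ P] [FaithfulSMul Γ P]
    [MulAction.IsPretransitive Γ P] [Finite P] [Nonempty P] (j : ℕ) :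
    ∀ {n : ℕ} (G : Subgroup (Equiv.Perm (Fin n))), IsTower (fun (γ : Γ) (x : P) => γ • x) j G →
      n = 2 ^ j * Nat.card P ∧ Transitive G ∧ ∃ φ : G →* Γ, Function.Surjective φ := by
  induction j with
  | zero =>
    intro n G hG
    refine ⟨?_, trans_act hG, hom_act hG⟩
    obtain ⟨f, -⟩ := hG
    rw [pow_zero, one_mul, ← Nat.card_congr f, Nat.card_fin]
  | succ j ih =>
    rintro n G ⟨m, H, hH, hG⟩
    obtain ⟨h1, h2, φ, hφ⟩ := ih H hH
    have hP : 0 < Nat.card P := Nat.card_pos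
    have hm : 0 < m := by rw [h1]; positivity
    obtain ⟨ψ, hψ⟩ := hom_step hm h2 hG
    refine ⟨?_, trans_step hG h2, φ.comp ψ, hφ.comp hψ⟩
    have h4 := Pool.Agent.NH85.ML.isWrP_deg (Q := Fin m) (H := H) (G := G) hG
    rw [Nat.card_fin] at h4
    rw [h4, h1, pow_succ]
    ring

/-- the upper bounds in a tower -/
theorem tower_good (K : Type) [Field K] [NumberField K] {Γ P : Type} [Group Γ] [MulAction Γ P]
    {s : ℝ} (h : Good K (img Γ P) s) (j : ℕ) :
    ∀ {n : ℕ} (G : Subgroup (Equiv.Perm (Fin n))), IsTower (fun (γ : Γ) (x : P) => γ • x) j G →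
      ∀ ε : ℝ, 0 < ε → Good K G (max 1 (1 / 2 + (s - 1 / 2) / 2 ^ j) + ε) := by
  induction j with
  | zero =>
    intro n G hG ε hε
    refine good_mono (good_act K hG h) ?_
    have := le_max_right 1 (1 / 2 + (s - 1 / 2) / 2 ^ 0)
    rw [pow_zero, div_one] at this ⊢
    linarith
  | succ j ih =>
    rintro n G ⟨m, H, hH, hG⟩ ε hε
    exact good_tower_step K hG (s - 1 / 2) j (fun ε hε => ih H hH ε hε) ε hε

theorem tower_exists {Γ P : Type} [Group Γ] [MulAction Γ P] [Finite P] (j : ℕ) :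
    ∃ (n : ℕ) (G : Subgroup (Equiv.Perm (Fin n))), IsTower (fun (γ : Γ) (x : P) => γ • x) j G := by
  induction j with
  | zero => exact exists_act' Γ P
  | succ j ih =>
    obtain ⟨m, H, hH⟩ := ih
    obtain ⟨n, G, hG⟩ := exists_step H
    exact ⟨n, G, m, H, hH, hG⟩

/-- existence of products -/
theorem exists_product {n₁ n₂ : ℕ} (G₁ : Subgroup (Equiv.Perm (Fin n₁)))
    (G₂ : Subgroup (Equiv.Perm (Fin n₂))) :
    ∃ (n : ℕ) (G : Subgroup (Equiv.Perm (Fin n))), IsProduct G₁ G₂ G := by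
  refine ⟨n₁ * n₂, {
    carrier := {π | ∃ g₁ ∈ G₁, ∃ g₂ ∈ G₂, ∀ i, finProdFinEquiv.symm (π i) =
      (g₁ (finProdFinEquiv.symm i).1, g₂ (finProdFinEquiv.symm i).2)}
    mul_mem' := ?_
    one_mem' := ⟨1, one_mem _, 1, one_mem _, fun i => rfl⟩
    inv_mem' := ?_ }, finProdFinEquiv.symm, fun π => Iff.rfl⟩
  · rintro a b ⟨g₁, h₁, g₂, h₂, h⟩ ⟨g₁', h₁', g₂', h₂', h'⟩
    refine ⟨g₁ * g₁', mul_mem h₁ h₁', g₂ * g₂', mul_mem h₂ h₂', fun i => ?_⟩
    rw [Equiv.Perm.mul_apply, h, h']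
    rfl
  · rintro a ⟨g₁, h₁, g₂, h₂, h⟩
    refine ⟨g₁⁻¹, inv_mem h₁, g₂⁻¹, inv_mem h₂, fun i => ?_⟩
    have h3 := h (a⁻¹ i)
    rw [show a (a⁻¹ i) = i from a.apply_symm_apply i] at h3
    rw [h3]
    simp

theorem product_data {n₁ n₂ : ℕ} {G₁ : Subgroup (Equiv.Perm (Fin n₁))}
    {G₂ : Subgroup (Equiv.Perm (Fin n₂))} (hG : IsProduct G₁ G₂ G) :
    n = n₁ * n₂ ∧ (Transitive G₁ → Transitive G₂ → Transitive G) := by
  obtain ⟨f, hf⟩ := hG
  constructor
  · have := Nat.card_congr f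
    rw [Nat.card_prod, Nat.card_fin, Nat.card_fin, Nat.card_fin] at this
    exact this
  · intro h1 h2 i j
    obtain ⟨g₁, hg₁, h3⟩ := h1 (f i).1 (f j).1
    obtain ⟨g₂, hg₂, h4⟩ := h2 (f i).2 (f j).2
    refine ⟨f.symm.permCongr (g₁.prodCongr g₂), (hf _).2 ⟨g₁, hg₁, g₂, hg₂, fun i => ?_⟩, ?_⟩
    · simp only [Equiv.permCongr_apply, Equiv.symm_symm, Equiv.apply_symm_apply]
      rfl
    · rw [Equiv.permCongr_apply, Equiv.symm_symm, Equiv.symm_apply_eq]
      exact Prod.ext h3 h4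

theorem product_equiv {n₁ n₂ : ℕ} (h₁ : 0 < n₁) (h₂ : 0 < n₂) {G₁ : Subgroup (Equiv.Perm (Fin n₁))}
    {G₂ : Subgroup (Equiv.Perm (Fin n₂))} (hG : IsProduct G₁ G₂ G) : Nonempty (G₁ × G₂ ≃* G) := by
  obtain ⟨f, hf⟩ := hG
  obtain ⟨ψ, hψ⟩ : ∃ ψ : G₁ × G₂ →* Equiv.Perm (Fin n), ∀ g i,
      f (ψ g i) = (g.1.1 (f i).1, g.2.1 (f i).2) := by
    refine ⟨⟨⟨fun g => f.symm.permCongr (g.1.1.prodCongr g.2.1), ?_⟩, ?_⟩, ?_⟩
    · ext1 i
      simp only [Equiv.permCongr_apply, Equiv.symm_symm]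
      rw [Equiv.Perm.one_apply, Equiv.symm_apply_eq]
      rfl
    · intro x y
      ext1 i
      rw [Equiv.Perm.mul_apply]
      simp only [Equiv.permCongr_apply, Equiv.symm_symm, Equiv.apply_symm_apply]
      rfl
    · intro g i
      simp only [MonoidHom.coe_mk, OneHom.coe_mk, Equiv.permCongr_apply, Equiv.symm_symm,
        Equiv.apply_symm_apply]
      rfl
  have hmem : ∀ g, ψ g ∈ G := fun g =>
    (hf _).2 ⟨g.1.1, g.1.2, g.2.1, g.2.2, fun i => hψ g i⟩
  have hinj : Function.Injective ψ := by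
    intro x y hxy
    have h3 : ∀ a b, (x.1.1 a, x.2.1 b) = (y.1.1 a, y.2.1 b) := by
      intro a b
      have h4 := hψ x (f.symm (a, b))
      have h5 := hψ y (f.symm (a, b))
      rw [hxy, h5, Equiv.apply_symm_apply] at h4
      exact h4.symm
    refine Prod.ext (Subtype.ext (Equiv.ext fun a => ?_)) (Subtype.ext (Equiv.ext fun b => ?_))
    · exact congrArg Prod.fst (h3 a ⟨0, h₂⟩)
    · exact congrArg Prod.snd (h3 ⟨0, h₁⟩ b)
  refine ⟨MulEquiv.ofBijective (ψ.codRestrict G hmem) ⟨?_, ?_⟩⟩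
  · intro x y hxy
    exact hinj (congrArg Subtype.val hxy)
  · rintro ⟨π, hπ⟩
    obtain ⟨g₁, hg₁, g₂, hg₂, h3⟩ := (hf π).1 hπ
    refine ⟨(⟨g₁, hg₁⟩, ⟨g₂, hg₂⟩), Subtype.ext (Equiv.ext fun i => f.injective ?_)⟩
    rw [h3 i]
    exact hψ _ i

theorem product_real (K : Type) [Field K] {n₁ n₂ : ℕ} (h₁ : 0 < n₁) (h₂ : 0 < n₂)
    {G₁ : Subgroup (Equiv.Perm (Fin n₁))}
    {G₂ : Subgroup (Equiv.Perm (Fin n₂))} (hG : IsProduct G₁ G₂ G) :
    Realizable K G ↔ Realizable K (G₁ × G₂) := by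
  obtain ⟨e⟩ := product_equiv h₁ h₂ hG
  exact ⟨Pool.Agent.Q24.ML.Real.congr e.symm, Pool.Agent.Q24.ML.Real.congr e⟩

/-- a common extension of two base fields -/
theorem LargeBase.of_common {P₀ P₁ : (K : Type) → [Field K] → [NumberField K] → Prop}
    (h₀ : ∃ (K₀ : Type) (_ : Field K₀) (_ : NumberField K₀), ∀ (K : Type) [Field K] [NumberField K]
      [Algebra K₀ K], P₀ K)
    (h₁ : ∃ (K₀ : Type) (_ : Field K₀) (_ : NumberField K₀), ∀ (K : Type) [Field K] [NumberField K]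
      [Algebra K₀ K], P₁ K) :
    ∃ (K₀ : Type) (_ : Field K₀) (_ : NumberField K₀), ∀ (K : Type) [Field K] [NumberField K]
      [Algebra K₀ K], P₀ K ∧ P₁ K := by
  obtain ⟨K₀, i1, i2, h₀⟩ := h₀
  obtain ⟨K₁, i3, i4, h₁⟩ := h₁
  let φ₀ : K₀ →ₐ[ℚ] AlgebraicClosure ℚ := IsAlgClosed.lift
  let φ₁ : K₁ →ₐ[ℚ] AlgebraicClosure ℚ := IsAlgClosed.lift
  let L : IntermediateField ℚ (AlgebraicClosure ℚ) := φ₀.fieldRange ⊔ φ₁.fieldRange
  have f0 : FiniteDimensional ℚ φ₀.fieldRange := by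
    exact (LinearEquiv.finiteDimensional (AlgEquiv.ofInjectiveField φ₀).toLinearEquiv)
  have f1 : FiniteDimensional ℚ φ₁.fieldRange := by
    exact (LinearEquiv.finiteDimensional (AlgEquiv.ofInjectiveField φ₁).toLinearEquiv)
  have f2 : FiniteDimensional ℚ L := IntermediateField.finiteDimensional_sup _ _
  have nf : NumberField L := ⟨⟩
  have g0 : K₀ →+* L := (φ₀.toRingHom.codRestrict L.toSubring fun x =>
    (le_sup_left : φ₀.fieldRange ≤ L) ⟨x, rfl⟩)
  have g1 : K₁ →+* L := (φ₁.toRingHom.codRestrict L.toSubring fun x =>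
    (le_sup_right : φ₁.fieldRange ≤ L) ⟨x, rfl⟩)
  refine ⟨L, inferInstance, nf, fun K _ _ _ => ⟨?_, ?_⟩⟩
  · let _ : Algebra K₀ K := ((algebraMap L K).comp g0).toAlgebra
    exact h₀ K
  · let _ : Algebra K₁ K := ((algebraMap L K).comp g1).toAlgebra
    exact h₁ K


/-- a surjection from `Γ` to its permutation group -/
theorem hom_act' {Γ P : Type} [Group Γ] [MulAction Γ P] {d : ℕ} {G : Subgroup (Equiv.Perm (Fin d))}
    (hG : IsAction (fun (γ : Γ) (x : P) => γ • x) G) : ∃ φ : Γ →* G, Function.Surjective φ := by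
  obtain ⟨f, hf⟩ := hG
  have hmem : ∀ γ : Γ, f.symm.permCongrHom (MulAction.toPermHom Γ P γ) ∈ G := by
    intro γ
    rw [hf]
    refine ⟨γ, fun i => ?_⟩
    simp [Equiv.permCongrHom, Equiv.permCongr_apply]
  refine ⟨(f.symm.permCongrHom.toMonoidHom.comp (MulAction.toPermHom Γ P)).codRestrict G hmem, ?_⟩
  rintro ⟨π, hπ⟩
  obtain ⟨γ, hγ⟩ := (hf π).1 hπ
  refine ⟨γ, Subtype.ext (Equiv.ext fun i => ?_)⟩
  apply f.injective
  rw [hγ i]
  simp [Equiv.permCongrHom, Equiv.permCongr_apply]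

/-- realizability goes up the tower -/
theorem tower_real (K : Type) [Field K] [NumberField K] {Γ P : Type} [Group Γ] [Finite Γ]
    [MulAction Γ P] (Y : Type) [Group Y] [Finite Y] (hK : Realizable K (Γ × Y)) (j : ℕ) :
    ∀ {n : ℕ} (G : Subgroup (Equiv.Perm (Fin n))), IsTower (fun (γ : Γ) (x : P) => γ • x) j G →
      (Pool.Agent.TH444.ML.Gal K (AlgebraicClosure K) (G × Y)).Nonempty := by
  induction j with
  | zero =>
    intro n G hG
    obtain ⟨φ, hφ⟩ := hom_act' hG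
    refine (real_gal K (G × Y)).1 ?_
    exact Pool.Agent.Q24.ML.Real.of_surj (φ.prodMap (MonoidHom.id Y))
      (Function.Surjective.prodMap hφ Function.surjective_id) hK
  | succ j ih =>
    rintro n G ⟨m, H, hH, hG⟩
    exact Pool.Agent.H44.PT.real_step Pool.Agent.H44.PT.SPL.main K hG Y (ih H hH)

theorem prod_crit (K : Type) [Field K] [NumberField K] {e : ℕ → ℝ} (he : BoundE e) {m k : ℕ}
    (hm : 0 < m) (hk : 0 < k)
    {H : Subgroup (Equiv.Perm (Fin m))} {Y : Subgroup (Equiv.Perm (Fin k))} (hY : Transitive Y)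
    {A A' : ℝ} (hgood : Good K H A)
    (hupY : Pool.Agent.NH85.ML.Upper K (AlgebraicClosure K) Y A')
    (hkm : k < 2 * m) (hexp : A + k * A' / m < 3 / 2)
    (hX : (Pool.Agent.TH444.ML.Gal K (AlgebraicClosure K) (H × Y)).Nonempty)
    {n₁ : ℕ} {G₁ : Subgroup (Equiv.Perm (Fin n₁))} (hG₁ : IsC2Wr H G₁) (hG : IsProduct G₁ Y G) :
    Asymptotic K G := by
  have hc : Consts G k := by
    obtain ⟨h1, h2⟩ := Pool.Agent.H44.PT.prod_consts hm hk H Y (pretrans (trans_of_good K hgood))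
      (pretrans hY) hkm hG₁ hG
    exact ⟨h1, h2⟩
  refine (hc.asymptotic_iff K).2 ?_
  refine Pool.Agent.H44.PT.prod_asymp2 K hm hk H Y
    (pretrans (trans_of_good K hgood)) (pretrans hY) hkm he hgood.upper hupY ?_ hX hG₁ hG
  have hk' : (0 : ℝ) < k := by exact_mod_cast hk
  have hm' : (0 : ℝ) < m := by exact_mod_cast hm
  have h3 : A / k + A' / m = (A + k * A' / m) / k := by
    field_simp
  have h4 : 3 / (2 * (k : ℝ)) = (3 / 2) / k := by
    field_simp
  rw [h3, h4]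
  exact div_lt_div_of_pos_right hexp hk'

/-- the bound for all extensions of degree `k` -/
theorem upper_e (K : Type) [Field K] [NumberField K] {e : ℕ → ℝ} (he : BoundE e) {k : ℕ}
    (hk : 0 < k) (Y : Subgroup (Equiv.Perm (Fin k))) :
    Pool.Agent.NH85.ML.Upper K (AlgebraicClosure K) Y (e k) := by
  obtain ⟨C, hC⟩ := he.2 k hk K
  refine ⟨|C|, abs_nonneg C, fun Z hZ => ?_⟩
  obtain ⟨h1, h2⟩ := hC Z hZ
  have h3 := Set.ncard_le_ncard (Pool.Agent.H44.PT.ttx_sub K hk Y Z) h1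
  calc ((Pool.Agent.NH85.ML.TTX K (AlgebraicClosure K) Y Z).ncard : ℝ)
      ≤ ((Pool.Agent.W301.Lin.FS K k Z).ncard : ℝ) := by exact_mod_cast h3
    _ ≤ C * Z ^ e k := h2
    _ ≤ |C| * Z ^ e k := mul_le_mul_of_nonneg_right (le_abs_self C)
        (Real.rpow_nonneg (by linarith) _)

theorem k_lt {k M : ℕ} (hk : 0 < k) (h : k * (k + 1) ≤ 3 * M) : k < 2 * M := by
  by_contra hcon
  rw [not_lt] at hcon
  have h1 : 2 * (k * (k + 1)) ≤ 3 * k := by
    calc 2 * (k * (k + 1)) ≤ 2 * (3 * M) := Nat.mul_le_mul_left _ h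
      _ = 3 * (2 * M) := by ring
      _ ≤ 3 * k := Nat.mul_le_mul_left _ hcon
  have h2 : 2 * k ≤ k * (k + 1) := by
    have : 2 ≤ k + 1 := by omega
    calc 2 * k = k * 2 := by ring
      _ ≤ k * (k + 1) := Nat.mul_le_mul_left _ this
  omega

/-- a function with the growth of Malle's conjecture -/
theorem growthE (f : ℝ → ℝ) (hf : ∀ X, 0 ≤ f X) (i b : ℕ) (c : ℝ) (hc : 0 < c) (ε : ℝ) (hε : 0 < ε)
    (h : Tendsto (fun X : ℝ => f X / (X ^ (1 / (i : ℝ)) * Real.log X ^ b)) atTop (nhds c)) :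
    (∃ X, 0 < f X) ∧ ∃ X₀, ∀ X, X₀ ≤ X → f X ≤ (c + 1) * X ^ (1 / (i : ℝ) + ε) := by
  refine ⟨(growth f hf i b c hc h).1, ?_⟩
  have h1 : ∀ᶠ X : ℝ in atTop, f X / (X ^ (1 / (i : ℝ)) * Real.log X ^ b) < c + 1 :=
    h.eventually (gt_mem_nhds (by linarith))
  have h2 : ∀ᶠ X : ℝ in atTop, ‖Real.log X ^ (b : ℝ)‖ ≤ 1 * ‖X ^ ε‖ :=
    (isLittleO_log_rpow_rpow_atTop (b : ℝ) hε).def one_pos
  have h3 := (h1.and h2).and (eventually_gt_atTop (3 : ℝ))
  obtain ⟨X₀, hX₀⟩ := eventually_atTop.1 h3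
  refine ⟨X₀, fun X hX => ?_⟩
  obtain ⟨⟨h4, h5⟩, h6⟩ := hX₀ X hX
  have hX0 : 0 < X := by linarith
  have hlog : 0 < Real.log X := Real.log_pos (by linarith)
  have hpos : 0 < X ^ (1 / (i : ℝ)) * Real.log X ^ b := by positivity
  rw [div_lt_iff₀ hpos] at h4
  rw [Real.rpow_natCast, one_mul, Real.norm_of_nonneg (by positivity),
    Real.norm_of_nonneg (by positivity)] at h5
  refine h4.le.trans ?_
  refine mul_le_mul_of_nonneg_left ?_ (by linarith)
  rw [Real.rpow_add hX0]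
  exact mul_le_mul_of_nonneg_left h5 (by positivity)

/-- the bounds which follow from the asymptotic formula -/
theorem good_of_asymp (K : Type) [Field K] [NumberField K] {m : ℕ}
    {H : Subgroup (Equiv.Perm (Fin m))} (hH : Asymptotic K H) :
    0 < m ∧ (∃ X : ℝ, 0 < count K H X) ∧ ∀ ε : ℝ, 0 < ε → (Good K H (1 / (minInd H : ℝ) + ε) ∧
      ∃ C X₀ : ℝ, ∀ X : ℝ, X₀ ≤ X → (count K H X : ℝ) ≤ C * X ^ (1 / (minInd H : ℝ) + ε)) := by
  obtain ⟨c, hc, hlim⟩ := hH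
  have h0 : ∀ ε : ℝ, 0 < ε → (0 < m ∧ (∃ X : ℝ, 0 < count K H X)) ∧
      (Good K H (1 / (minInd H : ℝ) + ε) ∧
      ∃ C X₀ : ℝ, ∀ X : ℝ, X₀ ≤ X → (count K H X : ℝ) ≤ C * X ^ (1 / (minInd H : ℝ) + ε)) := by
    intro ε hε
    obtain ⟨⟨X₁, h1⟩, X₀, h2⟩ := growthE (fun X => (count K H X : ℝ)) (fun X => Nat.cast_nonneg _)
      (minInd H) (beta K H - 1) c hc ε hε hlim
    have h3 : 0 < count K H X₁ := by exact_mod_cast h1
    obtain ⟨h4, h5⟩ := good_of_count K H (c + 1) X₀ h2 ⟨X₁, h3⟩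
    exact ⟨⟨h4, X₁, h3⟩, h5, c + 1, X₀, h2⟩
  exact ⟨(h0 1 one_pos).1.1, (h0 1 one_pos).1.2, fun ε hε => (h0 ε hε).2⟩

theorem ke_lt {e : ℕ → ℝ} (he' : ∀ {n : ℕ}, 1 ≤ n → e n < (n + 1) / 2) {k m : ℕ} (hk : 0 < k)
    (hm : 0 < m) : k * e k / m < k * (k + 1) / (2 * m) := by
  have hk' : (1 : ℝ) ≤ k := by exact_mod_cast hk
  have hm' : (0 : ℝ) < m := by exact_mod_cast hm
  rw [div_lt_div_iff₀ hm' (by positivity)]
  have := he' hk
  have h5 : k * e k < k * ((k + 1) / 2) := mul_lt_mul_of_pos_left this (by linarith)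
  nlinarith

/-- the formula for towers over `K` -/
theorem tower_over {e : ℕ → ℝ} (he : BoundE e) (he' : ∀ {n : ℕ}, 1 ≤ n → e n < (n + 1) / 2)
    (K : Type) [Field K] [NumberField K] {Γ P : Type} [Group Γ] [MulAction Γ P]
    [FaithfulSMul Γ P] [MulAction.IsPretransitive Γ P] [Finite P] [Nonempty P] {k i : ℕ} (hk : 0 < k)
    {Y : Subgroup (Equiv.Perm (Fin k))} (hY : Transitive Y) {A' : ℝ}
    (hupY : Pool.Agent.NH85.ML.Upper K (AlgebraicClosure K) Y A') {M : ℕ}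
    {H : Subgroup (Equiv.Perm (Fin M))} (hH : IsTower (fun (γ : Γ) (x : P) => γ • x) i H) {n₁ : ℕ}
    {T : Subgroup (Equiv.Perm (Fin n₁))} (hTH : IsC2Wr H T) (hkM : k < 2 * M)
    (h3 : k * A' / M < 1 / 2) (h4 : (Nat.card P : ℝ) / 2 / 2 ^ i + k * A' / M ≤ 1)
    (hG : IsProduct T Y G) (hK : Realizable K (Γ × Y)) : Asymptotic K G := by
  have hfinΓ : Finite Γ := Finite.of_injective _
    (MulAction.toPerm_injective : Function.Injective (MulAction.toPerm (α := Γ) (β := P)))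
  obtain ⟨hM1, hM2, φ, hφ⟩ := tower_data (P := P) i H hH
  have hP : 0 < Nat.card P := Nat.card_pos
  have hM : 0 < M := by rw [hM1]; positivity
  have hKΓ : Realizable K Γ :=
    Pool.Agent.Q24.ML.Real.of_surj (MonoidHom.fst Γ Y) Prod.fst_surjective hK
  obtain ⟨s, -, hs, hgood⟩ := good_few3 he K Γ P
    (few_point3 he.1 (((Nat.card P : ℕ) + 1 : ℝ) / 2) (he' hP)) ((real_gal K Γ).1 hKΓ)
  have h5 : (s - 1 / 2) / 2 ^ i + k * A' / M < 1 := by
    have h6 : (s - 1 / 2) / 2 ^ i < (Nat.card P : ℝ) / 2 / 2 ^ i :=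
      div_lt_div_of_pos_right (by linarith) (by positivity)
    linarith
  obtain ⟨a, ha⟩ : ∃ a, a = max 1 (1 / 2 + (s - 1 / 2) / 2 ^ i) := ⟨_, rfl⟩
  have ha1 : a + k * A' / M < 3 / 2 := by
    rw [ha, max_add, max_lt_iff]
    constructor <;> linarith
  obtain ⟨ε, hε, hε1⟩ : ∃ ε : ℝ, 0 < ε ∧ a + ε + k * A' / M < 3 / 2 :=
    ⟨(3 / 2 - (a + k * A' / M)) / 2, by linarith, by linarith⟩
  have hgH := tower_good K hgood i H hH ε hε
  rw [← ha] at hgH
  exact prod_crit K he hM hk hY hgH hupY hkM hε1 (tower_real K Y hK i H hH) hTH hG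

/-- the constants for towers, and realizability -/
theorem tower_rest {Γ P : Type} [Group Γ] [MulAction Γ P]
    [FaithfulSMul Γ P] [MulAction.IsPretransitive Γ P] [Finite P] [Nonempty P] {k i : ℕ} (hk : 0 < k)
    {Y : Subgroup (Equiv.Perm (Fin k))} (hY : Transitive Y) {M : ℕ}
    {H : Subgroup (Equiv.Perm (Fin M))} (hH : IsTower (fun (γ : Γ) (x : P) => γ • x) i H) {n₁ : ℕ}
    {T : Subgroup (Equiv.Perm (Fin n₁))} (hTH : IsC2Wr H T) (hkM : k < 2 * M)
    (hG : IsProduct T Y G) : Consts G k ∧ ∀ (K : Type) [Field K] [NumberField K],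
      (Asymptotic K G → Realizable K (Γ × Y)) ∧ (Realizable K G ↔ Realizable K (Γ × Y)) := by
  have hfinΓ : Finite Γ := Finite.of_injective _
    (MulAction.toPerm_injective : Function.Injective (MulAction.toPerm (α := Γ) (β := P)))
  obtain ⟨hM1, hM2, φ, hφ⟩ := tower_data (P := P) i H hH
  have hP : 0 < Nat.card P := Nat.card_pos
  have hM : 0 < M := by rw [hM1]; positivity
  obtain ⟨hT1, -, φT, hφT⟩ := tower_data (P := P) (i + 1) T ⟨M, H, hH, hTH⟩
  have hT0 : 0 < n₁ := by rw [hT1]; positivity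
  refine ⟨?_, fun K _ _ => ⟨fun hK => ?_, ?_⟩⟩
  · obtain ⟨h3, h4⟩ := Pool.Agent.H44.PT.prod_consts hM hk H Y (pretrans hM2)
      (pretrans hY) hkM hTH hG
    exact ⟨h3, h4⟩
  · obtain ⟨B, hB⟩ := nonempty_of_asymp K hK
    have h3 := (real_gal K (H × Y)).2
      (Pool.Agent.H44.PT.prod_down K hM hk H Y (pretrans hM2) (pretrans hY) hkM hTH hG hB)
    exact Pool.Agent.Q24.ML.Real.of_surj (φ.prodMap (MonoidHom.id Y))
      (Function.Surjective.prodMap hφ Function.surjective_id) h3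
  · rw [product_real K hT0 hk hG]
    exact ⟨Pool.Agent.Q24.ML.Real.of_surj (φT.prodMap (MonoidHom.id Y))
      (Function.Surjective.prodMap hφT Function.surjective_id), fun h => (real_gal K (T × Y)).2
        (tower_real K Y h (i + 1) T ⟨M, H, hH, hTH⟩)⟩

/-- the theorem for towers -/
theorem tower_prod {e : ℕ → ℝ} (he : BoundE e) (he' : ∀ {n : ℕ}, 1 ≤ n → e n < (n + 1) / 2)
    {Γ P : Type} [Group Γ] [MulAction Γ P]
    [FaithfulSMul Γ P] [MulAction.IsPretransitive Γ P] [Finite P] [Nonempty P] {k j : ℕ} (hk : 0 < k)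
    {Y : Subgroup (Equiv.Perm (Fin k))} (hY : Transitive Y) (hj : 1 ≤ j)
    (h1 : k * (k + 1) ≤ 2 ^ (j - 1) * Nat.card P)
    (h2 : Nat.card P ^ 2 + k * (k + 1) ≤ 2 ^ j * Nat.card P) {n₁ : ℕ}
    {T : Subgroup (Equiv.Perm (Fin n₁))} (hT : IsTower (fun (γ : Γ) (x : P) => γ • x) j T)
    (hG : IsProduct T Y G) : SolvedBy G k (Γ × Y) := by
  have hfinΓ : Finite Γ := Finite.of_injective _
    (MulAction.toPerm_injective : Function.Injective (MulAction.toPerm (α := Γ) (β := P)))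
  obtain ⟨i, rfl⟩ : ∃ i, j = i + 1 := ⟨j - 1, by omega⟩
  obtain ⟨M, H, hH, hTH⟩ := hT
  obtain ⟨hM1, -, -⟩ := tower_data (P := P) i H hH
  have hP : 0 < Nat.card P := Nat.card_pos
  have hM : 0 < M := by rw [hM1]; positivity
  rw [Nat.add_sub_cancel, ← hM1] at h1
  have h2 : Nat.card P ^ 2 + k * (k + 1) ≤ M * 2 := h2.trans_eq (by rw [hM1]; ring)
  have hkM : k < 2 * M := k_lt hk (by omega)
  obtain ⟨hc, hrest⟩ := tower_rest hk hY hH hTH hkM hG
  have hasy : ∀ (K : Type) [Field K] [NumberField K], Realizable K (Γ × Y) → Asymptotic K G := by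
    intro K _ _ hK
    have hk' : (1 : ℝ) ≤ k := by exact_mod_cast hk
    have hM' : (0 : ℝ) < M := by exact_mod_cast hM
    have hP' : (0 : ℝ) < Nat.card P := by exact_mod_cast hP
    have hMP : (M : ℝ) = 2 ^ i * Nat.card P := by rw [hM1]; push_cast; ring
    have h3 := ke_lt he' hk hM
    have h4 : (k : ℝ) * (k + 1) / (2 * M) ≤ 1 / 2 := by
      rw [div_le_div_iff₀ (by positivity) (by norm_num)]
      have : ((k * (k + 1) : ℕ) : ℝ) ≤ M := by exact_mod_cast h1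
      push_cast at this
      linarith
    have h7 : (Nat.card P : ℝ) / 2 / 2 ^ i = (Nat.card P : ℝ) ^ 2 / (2 * M) := by
      rw [hMP]
      field_simp
    have h8 : (Nat.card P : ℝ) ^ 2 / (2 * M) + k * (k + 1) / (2 * M) ≤ 1 := by
      rw [← add_div, div_le_one (by positivity)]
      have : ((Nat.card P ^ 2 + k * (k + 1) : ℕ) : ℝ) ≤ ((M * 2 : ℕ) : ℝ) := by exact_mod_cast h2
      push_cast at this
      linarith
    refine tower_over he he' K hk hY (upper_e K he hk Y) hH hTH hkM ?_ ?_ hG hK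
    · linarith
    · rw [h7]
      linarith
  refine ⟨?_, fun K _ _ => ⟨hc.minInd_eq, hc.beta_eq K, ⟨(hrest K).1, hasy K⟩, (hrest K).2⟩⟩
  obtain ⟨K₀, i1, i2, hK₀⟩ := Pool.Agent.Q248.ML.exists_base (Γ × Y)
  exact ⟨K₀, i1, i2, fun K _ _ _ => hasy K (hK₀ K)⟩

/-- the theorem for towers and a group `Y` with known asymptotics -/
theorem tower_prod2 {e : ℕ → ℝ} (he : BoundE e) (he' : ∀ {n : ℕ}, 1 ≤ n → e n < (n + 1) / 2)
    {Γ P : Type} [Group Γ] [MulAction Γ P]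
    [FaithfulSMul Γ P] [MulAction.IsPretransitive Γ P] [Finite P] [Nonempty P] {k j : ℕ} (hk : 0 < k)
    {Y : Subgroup (Equiv.Perm (Fin k))} (hY : Transitive Y) (hj : 1 ≤ j)
    (h1 : 2 * k < 2 ^ (j - 1) * Nat.card P * minInd Y)
    (h2 : Nat.card P ≤ 2 ^ (j - 1)) (hkm : k < 2 ^ j * Nat.card P) {n₁ : ℕ}
    {T : Subgroup (Equiv.Perm (Fin n₁))} (hT : IsTower (fun (γ : Γ) (x : P) => γ • x) j T)
    (hG : IsProduct T Y G) : (LargeBase Y → LargeBase G) ∧
      ∀ (K : Type) [Field K] [NumberField K], Asymptotic K Y → SolvedOver K G k (Γ × Y) := by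
  have hfinΓ : Finite Γ := Finite.of_injective _
    (MulAction.toPerm_injective : Function.Injective (MulAction.toPerm (α := Γ) (β := P)))
  obtain ⟨i, rfl⟩ : ∃ i, j = i + 1 := ⟨j - 1, by omega⟩
  obtain ⟨M, H, hH, hTH⟩ := hT
  obtain ⟨hM1, -, -⟩ := tower_data (P := P) i H hH
  have hP : 0 < Nat.card P := Nat.card_pos
  have hM : 0 < M := by rw [hM1]; positivity
  rw [Nat.add_sub_cancel] at h1 h2
  rw [← hM1] at h1
  have hkM : k < 2 * M := hkm.trans_eq (by rw [hM1]; ring)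
  obtain ⟨hc, hrest⟩ := tower_rest hk hY hH hTH hkM hG
  have hasy : ∀ (K : Type) [Field K] [NumberField K], Asymptotic K Y →
      Realizable K (Γ × Y) → Asymptotic K G := by
    intro K _ _ hKY hK
    obtain ⟨-, -, hgY⟩ := good_of_asymp K hKY
    have hk' : (1 : ℝ) ≤ k := by exact_mod_cast hk
    have hM' : (0 : ℝ) < M := by exact_mod_cast hM
    have hq0 : 0 < minInd Y := by
      rcases Nat.eq_zero_or_pos (minInd Y) with h | h
      · rw [h] at h1
        omega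
      · exact h
    have hq : (0 : ℝ) < minInd Y := by exact_mod_cast hq0
    have h3 : (k : ℝ) * (1 / minInd Y) / M < 1 / 2 := by
      rw [mul_one_div, div_div, div_lt_div_iff₀ (by positivity) (by norm_num)]
      have : ((2 * k : ℕ) : ℝ) < ((M * minInd Y : ℕ) : ℝ) := by exact_mod_cast h1
      push_cast at this
      linarith
    obtain ⟨ε, hε, hε1⟩ : ∃ ε : ℝ, 0 < ε ∧ (k : ℝ) * (1 / minInd Y + ε) / M < 1 / 2 := by
      refine ⟨M * (1 / 2 - k * (1 / minInd Y) / M) / (2 * k), ?_, ?_⟩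
      · have : 0 < 1 / 2 - (k : ℝ) * (1 / minInd Y) / M := by linarith
        positivity
      · have h4 : (k : ℝ) * (1 / minInd Y + M * (1 / 2 - k * (1 / minInd Y) / M) / (2 * k)) / M =
            k * (1 / minInd Y) / M + (1 / 2 - k * (1 / minInd Y) / M) / 2 := by
          field_simp
        rw [h4]
        linarith
    refine tower_over he he' K hk hY (hgY ε hε).1.upper hH hTH hkM hε1 ?_ hG hK
    have h5 : (Nat.card P : ℝ) / 2 / 2 ^ i ≤ 1 / 2 := by
      rw [div_div, div_le_div_iff₀ (by positivity) (by norm_num)]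
      have : (Nat.card P : ℝ) ≤ 2 ^ i := by exact_mod_cast h2
      linarith
    linarith
  refine ⟨fun h => ?_, fun K _ _ hK => ⟨hc.minInd_eq, hc.beta_eq K, ⟨(hrest K).1, hasy K hK⟩,
    (hrest K).2⟩⟩
  obtain ⟨K₀, i1, i2, hK₀⟩ := LargeBase.of_common (P₀ := fun K _ _ => Asymptotic K Y)
    (P₁ := fun K _ _ => Realizable K (Γ × Y)) h (Pool.Agent.Q248.ML.exists_base (Γ × Y))
  exact ⟨K₀, i1, i2, fun K _ _ _ => hasy K (hK₀ K).1 (hK₀ K).2⟩


/-- abelian factors do not matter -/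
theorem real_comm_left (K : Type) [Field K] [NumberField K] (Γ Y : Type) [Group Γ] [Finite Γ]
    [Group Y] [Finite Y] (h : ∀ x y : Γ, x * y = y * x) :
    Realizable K (Γ × Y) ↔ Realizable K Y := by
  refine ⟨fun hK => Pool.Agent.Q24.ML.Real.of_surj (MonoidHom.snd Γ Y) Prod.snd_surjective hK,
    fun hK => ?_⟩
  obtain ⟨M, hM⟩ := (real_gal K Y).1 hK
  refine (real_gal K (Γ × Y)).2 ?_
  refine Pool.Agent.W5h93.MX.gal_of_cls K (MonoidHom.snd Γ Y) ?_
    (Pool.Agent.W5h93.MX.isG_of_gal K (MonoidHom.id Y) Function.surjective_id hM)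
  refine Pool.Agent.TH444.TW.Cls.abelian _ (MonoidHom.inr Γ Y) (fun y => rfl) inferInstance ?_
  rintro ⟨x, y⟩ ⟨x', y'⟩ h1 h2
  have e1 : y = 1 := h1
  have e2 : y' = 1 := h2
  rw [e1, e2]
  exact Prod.ext (h x x') rfl

theorem real_comm_right (K : Type) [Field K] [NumberField K] (Γ Y : Type) [Group Γ] [Finite Γ]
    [Group Y] [Finite Y] (h : ∀ x y : Y, x * y = y * x) :
    Realizable K (Γ × Y) ↔ Realizable K Γ := by
  rw [← real_comm_left K Y Γ h]
  exact ⟨Pool.Agent.Q24.ML.Real.of_surj (MulEquiv.prodComm : Γ × Y ≃* Y × Γ).toMonoidHom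
      (MulEquiv.prodComm : Γ × Y ≃* Y × Γ).surjective,
    Pool.Agent.Q24.ML.Real.of_surj (MulEquiv.prodComm : Y × Γ ≃* Γ × Y).toMonoidHom
      (MulEquiv.prodComm : Y × Γ ≃* Γ × Y).surjective⟩

/-- one step, with given growth -/
theorem step_prod0 {e : ℕ → ℝ} (he : BoundE e)
    (K : Type) [Field K] [NumberField K] {m k : ℕ} (H : Subgroup (Equiv.Perm (Fin m)))
    (Y : Subgroup (Equiv.Perm (Fin k))) {A A' : ℝ} (hm : 0 < m) (hk : 0 < k) (hY : Transitive Y)
    (hgood : Good K H A) (hupY : Pool.Agent.NH85.ML.Upper K (AlgebraicClosure K) Y A')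
    (hkm : k < 2 * m) (hA : A + k * A' / m < 3 / 2) {n₁ : ℕ}
    {G₁ : Subgroup (Equiv.Perm (Fin n₁))} (hG₁ : IsC2Wr H G₁) (hG : IsProduct G₁ Y G) :
    SolvedOver K G k (H × Y) := by
  have hH := trans_of_good K hgood
  have hc : Consts G k := by
    obtain ⟨h3, h4⟩ := Pool.Agent.H44.PT.prod_consts hm hk H Y (pretrans hH)
      (pretrans hY) hkm hG₁ hG
    exact ⟨h3, h4⟩
  refine ⟨hc.minInd_eq, hc.beta_eq K, ⟨fun h => ?_, fun h => ?_⟩, ?_⟩
  · obtain ⟨B, hB⟩ := nonempty_of_asymp K h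
    exact (real_gal K (H × Y)).2
      (Pool.Agent.H44.PT.prod_down K hm hk H Y (pretrans hH) (pretrans hY) hkm hG₁ hG hB)
  · exact prod_crit K he hm hk hY hgood hupY hkm hA ((real_gal K (H × Y)).1 h) hG₁ hG
  · have hn₁ : n₁ = 2 * m := by
      have h4 := Pool.Agent.NH85.ML.isWrP_deg (Q := Fin m) (H := H) (G := G₁) hG₁
      rw [Nat.card_fin] at h4
      exact h4
    rw [product_real K (by omega) hk hG]
    obtain ⟨ψ, hψ⟩ := hom_step hm hH hG₁
    exact ⟨Pool.Agent.Q24.ML.Real.of_surj (ψ.prodMap (MonoidHom.id Y))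
      (Function.Surjective.prodMap hψ Function.surjective_id), fun h => (real_gal K (G₁ × Y)).2
        (Pool.Agent.H44.PT.real_step Pool.Agent.H44.PT.SPL.main K hG₁ Y
          ((real_gal K (H × Y)).1 h))⟩

theorem k_lt' {A : ℝ} (hA0 : 0 ≤ A) {k m : ℕ} (hk : 0 < k) (hm : 0 < m)
    (hA : A + k * (k + 1) / (2 * m) ≤ 3 / 2) : k < 2 * m := by
  have hm' : (0 : ℝ) < m := by exact_mod_cast hm
  refine k_lt hk ?_
  have h1 : (k : ℝ) * (k + 1) / (2 * m) ≤ 3 / 2 := by linarith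
  rw [div_le_div_iff₀ (by positivity) (by norm_num)] at h1
  have h2 : ((k * (k + 1) : ℕ) : ℝ) ≤ ((3 * m : ℕ) : ℝ) := by
    push_cast
    linarith
  exact_mod_cast h2

/-- growth of `H`, arbitrary `Y` -/
theorem step_prod {e : ℕ → ℝ} (he : BoundE e) (he' : ∀ {n : ℕ}, 1 ≤ n → e n < (n + 1) / 2)
    (K : Type) [Field K] [NumberField K] {m k : ℕ} (H : Subgroup (Equiv.Perm (Fin m)))
    (Y : Subgroup (Equiv.Perm (Fin k))) (A C X₀ : ℝ) (hk : 0 < k) (hY : Transitive Y)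
    (hne : ∃ X : ℝ, 0 < count K H X)
    (hC : ∀ X : ℝ, X₀ ≤ X → (count K H X : ℝ) ≤ C * X ^ A) (hA0 : 0 ≤ A)
    (hA : A + k * (k + 1) / (2 * m) ≤ 3 / 2) {n₁ : ℕ}
    {G₁ : Subgroup (Equiv.Perm (Fin n₁))} (hG₁ : IsC2Wr H G₁) (hG : IsProduct G₁ Y G) :
    SolvedOver K G k (H × Y) := by
  obtain ⟨hm, hgood⟩ := good_of_count K H C X₀ hC hne
  exact step_prod0 he K H Y hm hk hY hgood (upper_e K he hk Y) (k_lt' hA0 hk hm hA)
    (by have := ke_lt he' hk hm; linarith) hG₁ hG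

/-- growth of `H` and of `Y` -/
theorem step_prod' {e : ℕ → ℝ} (he : BoundE e)
    (K : Type) [Field K] [NumberField K] {m k : ℕ} (H : Subgroup (Equiv.Perm (Fin m)))
    (Y : Subgroup (Equiv.Perm (Fin k))) (A A' C X₀ : ℝ)
    (hne : ∃ X : ℝ, 0 < count K H X) (hneY : ∃ X : ℝ, 0 < count K Y X)
    (hC : ∀ X : ℝ, X₀ ≤ X → (count K H X : ℝ) ≤ C * X ^ A)
    (hCY : ∀ X : ℝ, X₀ ≤ X → (count K Y X : ℝ) ≤ C * X ^ A') (hkm : k < 2 * m)
    (hA : A + k * A' / m < 3 / 2) {n₁ : ℕ}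
    {G₁ : Subgroup (Equiv.Perm (Fin n₁))} (hG₁ : IsC2Wr H G₁) (hG : IsProduct G₁ Y G) :
    SolvedOver K G k (H × Y) := by
  obtain ⟨hm, hgood⟩ := good_of_count K H C X₀ hC hne
  obtain ⟨hk, hgoodY⟩ := good_of_count K Y C X₀ hCY hneY
  exact step_prod0 he K H Y hm hk (trans_of_good K hgoodY) hgood hgoodY.upper hkm hA hG₁ hG

/-- one step, from the formula for `H` -/
theorem step_asymp {e : ℕ → ℝ} (he : BoundE e) (he' : ∀ {n : ℕ}, 1 ≤ n → e n < (n + 1) / 2)
    (K : Type) [Field K] [NumberField K] {m k : ℕ} (H : Subgroup (Equiv.Perm (Fin m)))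
    (Y : Subgroup (Equiv.Perm (Fin k))) (hk : 0 < k) (hY : Transitive Y)
    (hH : Asymptotic K H) (hA : 1 / (minInd H : ℝ) + k * (k + 1) / (2 * m) ≤ 3 / 2) {n₁ : ℕ}
    {G₁ : Subgroup (Equiv.Perm (Fin n₁))} (hG₁ : IsC2Wr H G₁) (hG : IsProduct G₁ Y G) :
    SolvedOver K G k (H × Y) := by
  obtain ⟨hm, -, hgood⟩ := good_of_asymp K hH
  have h0 : 0 ≤ 1 / (minInd H : ℝ) := by positivity
  have h3 := ke_lt he' hk hm
  obtain ⟨ε, hε, hε1⟩ : ∃ ε : ℝ, 0 < ε ∧ 1 / (minInd H : ℝ) + ε + k * e k / m < 3 / 2 :=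
    ⟨(3 / 2 - (1 / (minInd H : ℝ) + k * e k / m)) / 2, by linarith, by linarith⟩
  exact step_prod0 he K H Y hm hk hY (hgood ε hε).1 (upper_e K he hk Y) (k_lt' h0 hk hm hA) hε1
    hG₁ hG

/-- one step, from the formula for `H` and for `Y` -/
theorem step_asymp' {e : ℕ → ℝ} (he : BoundE e)
    (K : Type) [Field K] [NumberField K] {m k : ℕ} (H : Subgroup (Equiv.Perm (Fin m)))
    (Y : Subgroup (Equiv.Perm (Fin k)))
    (hH : Asymptotic K H) (hY : Asymptotic K Y) (hkm : k < 2 * m)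
    (hA : 1 / (minInd H : ℝ) + k / (m * minInd Y) < 3 / 2) {n₁ : ℕ}
    {G₁ : Subgroup (Equiv.Perm (Fin n₁))} (hG₁ : IsC2Wr H G₁) (hG : IsProduct G₁ Y G) :
    SolvedOver K G k (H × Y) := by
  obtain ⟨hm, -, hgood⟩ := good_of_asymp K hH
  obtain ⟨hk, -, hgoodY⟩ := good_of_asymp K hY
  have hk' : (0 : ℝ) < k := by exact_mod_cast hk
  have hm' : (0 : ℝ) < m := by exact_mod_cast hm
  obtain ⟨δ, hδ, hδ1⟩ : ∃ δ : ℝ, 0 < δ ∧
      1 / (minInd H : ℝ) + k / (m * minInd Y) + 2 * δ < 3 / 2 :=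
    ⟨(3 / 2 - (1 / (minInd H : ℝ) + k / (m * minInd Y))) / 4, by linarith, by linarith⟩
  have h5 : (k : ℝ) * (1 / (minInd Y : ℝ) + δ * m / k) / m = k / (m * minInd Y) + δ := by
    rw [mul_add, add_div]
    congr 1
    · rw [mul_one_div, div_div, mul_comm (m : ℝ)]
    · field_simp
  exact step_prod0 he K H Y hm hk (trans_of_good K (hgoodY 1 one_pos).1) (hgood δ hδ).1
    (hgoodY (δ * m / k) (by positivity)).1.upper hkm (by rw [h5]; linarith) hG₁ hG

theorem step_large {e : ℕ → ℝ} (he : BoundE e) (he' : ∀ {n : ℕ}, 1 ≤ n → e n < (n + 1) / 2)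
    {m k : ℕ} (H : Subgroup (Equiv.Perm (Fin m)))
    (Y : Subgroup (Equiv.Perm (Fin k))) (hk : 0 < k) (hY : Transitive Y)
    (hH : LargeBase H) (hA : 1 / (minInd H : ℝ) + k * (k + 1) / (2 * m) ≤ 3 / 2) {n₁ : ℕ}
    {G₁ : Subgroup (Equiv.Perm (Fin n₁))} (hG₁ : IsC2Wr H G₁) (hG : IsProduct G₁ Y G) :
    LargeBase G := by
  obtain ⟨K₀, i1, i2, hK₀⟩ := LargeBase.of_common (P₀ := fun K _ _ => Asymptotic K H)
    (P₁ := fun K _ _ => Realizable K (H × Y)) hH (Pool.Agent.Q248.ML.exists_base (H × Y))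
  exact ⟨K₀, i1, i2, fun K _ _ _ =>
    ((step_asymp he he' K H Y hk hY (hK₀ K).1 hA hG₁ hG).2.2.1).2 (hK₀ K).2⟩

theorem step_large' {e : ℕ → ℝ} (he : BoundE e)
    {m k : ℕ} (H : Subgroup (Equiv.Perm (Fin m)))
    (Y : Subgroup (Equiv.Perm (Fin k))) (hH : LargeBase H) (hY : LargeBase Y) (hkm : k < 2 * m)
    (hA : 1 / (minInd H : ℝ) + k / (m * minInd Y) < 3 / 2) {n₁ : ℕ}
    {G₁ : Subgroup (Equiv.Perm (Fin n₁))} (hG₁ : IsC2Wr H G₁) (hG : IsProduct G₁ Y G) :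
    LargeBase G := by
  obtain ⟨K₀, i1, i2, hK₀⟩ := LargeBase.of_common (P₀ := fun K _ _ => Asymptotic K H)
    (P₁ := fun K _ _ => Asymptotic K Y ∧ Realizable K (H × Y)) hH
    (LargeBase.of_common (P₀ := fun K _ _ => Asymptotic K Y)
    (P₁ := fun K _ _ => Realizable K (H × Y)) hY (Pool.Agent.Q248.ML.exists_base (H × Y)))
  exact ⟨K₀, i1, i2, fun K _ _ _ =>
    ((step_asymp' he K H Y (hK₀ K).1 (hK₀ K).2.1 hkm hA hG₁ hG).2.2.1).2 (hK₀ K).2.2⟩

theorem SolvedBy.congr {r : ℕ} {Γ Γ' : Type} [Group Γ] [Group Γ']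
    (h : ∀ (K : Type) [Field K] [NumberField K], Realizable K Γ ↔ Realizable K Γ')
    (hG : SolvedBy G r Γ) : SolvedBy G r Γ' := by
  refine ⟨hG.1, fun K _ _ => ?_⟩
  obtain ⟨h1, h2, h3, h4⟩ := hG.2 K
  exact ⟨h1, h2, h3.trans (h K), h4.trans (h K)⟩

theorem real_unit (K : Type) [Field K] : Realizable K Unit := by
  have hs : Subsingleton (K ≃ₐ[K] K) := ⟨fun σ τ => by
    ext x
    exact (σ.commutes x).trans (τ.commutes x).symm⟩
  have hu : Unique (K ≃ₐ[K] K) := ⟨⟨1⟩, fun σ => Subsingleton.elim _ _⟩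
  exact ⟨K, inferInstance, inferInstance, inferInstance, inferInstance, ⟨MulEquiv.ofUnique⟩⟩

theorem real_comm (K : Type) [Field K] [NumberField K] (Y : Type) [Group Y] [Finite Y]
    (h : ∀ x y : Y, x * y = y * x) : Realizable K Y :=
  Pool.Agent.Q24.ML.Real.of_surj (MonoidHom.fst Y Unit) Prod.fst_surjective
    ((real_comm_left K Y Unit h).2 (real_unit K))

end proof

end Pool.Agent.Results.MP_b39724_nt.ProductsWithTowers

open Pool.Agent.Results.MP_b39724_nt.ProductsWithTowers in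
/-- (1) `G = T × Y`, where `T` is a tower with `j` factors `C₂` over any transitive group `Γ` of degree
`m`, and `Y ≤ S_k` is any transitive group, `k (k + 1) ≤ 2 ^ (j - 1) m`, `m ^ 2 + k (k + 1) ≤ 2 ^ j m`;
(2) the case of abelian `Γ` (for example, trivial) or abelian `Y`, and all number fields; (3) `Γ = S_m`;
(4) `Y` with known asymptotics; (5), (6) `(C₂ ≀ H) × Y` for `H` (and `Y`) with bounded growth, or with
the asymptotic formula; (7) existence. -/
theorem Pool.Agent.Results.MP_b39724_nt.ProductsWithTowers.result :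
    -- (1) towers over any group, times any group
    (∀ (Γ P : Type) [Group Γ] [MulAction Γ P] [FaithfulSMul Γ P] [MulAction.IsPretransitive Γ P]
      [Finite P] [Nonempty P] (k j : ℕ) (Y : Subgroup (Equiv.Perm (Fin k))), 0 < k → Transitive Y →
      1 ≤ j → k * (k + 1) ≤ 2 ^ (j - 1) * Nat.card P →
      Nat.card P ^ 2 + k * (k + 1) ≤ 2 ^ j * Nat.card P →
      ∀ (n₁ n : ℕ) (T : Subgroup (Equiv.Perm (Fin n₁))) (G : Subgroup (Equiv.Perm (Fin n))),
        IsTower (fun (γ : Γ) (x : P) => γ • x) j T → IsProduct T Y G →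
          SolvedBy G k (Γ × Y) ∧
          -- (2) abelian factors do not matter
          ((∀ x y : Γ, x * y = y * x) → SolvedBy G k Y) ∧
          ((∀ x y : Y, x * y = y * x) → SolvedBy G k Γ) ∧
          ((∀ x y : Γ, x * y = y * x) → ((∀ x y : Y, x * y = y * x) ∨ (3 ≤ k ∧ Y = ⊤)) →
            ∀ (K : Type) [Field K] [NumberField K], Asymptotic K G)) ∧
    -- (3) towers over `S_m`, times abelian groups
    (∀ (m k j : ℕ) (Y : Subgroup (Equiv.Perm (Fin k))), 3 ≤ m → 0 < k → Transitive Y →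
      (∀ x y : Y, x * y = y * x) → 1 ≤ j → k * (k + 1) ≤ 2 ^ (j - 1) * m →
      m ^ 2 + k * (k + 1) ≤ 2 ^ j * m →
      ∀ (n₁ n : ℕ) (T : Subgroup (Equiv.Perm (Fin n₁))) (G : Subgroup (Equiv.Perm (Fin n))),
        IsTower (fun (g : Equiv.Perm (Fin m)) (x : Fin m) => g x) j T → IsProduct T Y G →
          ∀ (K : Type) [Field K] [NumberField K], Asymptotic K G) ∧
    -- (4) towers over any group, times a group with known asymptotics
    (∀ (Γ P : Type) [Group Γ] [MulAction Γ P] [FaithfulSMul Γ P] [MulAction.IsPretransitive Γ P]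
      [Finite P] [Nonempty P] (k j : ℕ) (Y : Subgroup (Equiv.Perm (Fin k))), 0 < k → Transitive Y →
      1 ≤ j → Nat.card P ≤ 2 ^ (j - 1) → k < 2 ^ j * Nat.card P →
      2 * k < 2 ^ (j - 1) * Nat.card P * minInd Y →
      ∀ (n₁ n : ℕ) (T : Subgroup (Equiv.Perm (Fin n₁))) (G : Subgroup (Equiv.Perm (Fin n))),
        IsTower (fun (γ : Γ) (x : P) => γ • x) j T → IsProduct T Y G →
          (LargeBase Y → LargeBase G) ∧
          ∀ (K : Type) [Field K] [NumberField K], Asymptotic K Y → SolvedOver K G k (Γ × Y)) ∧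
    -- (5) `(C₂ ≀ H) × Y` with bounded growth
    (∀ (K : Type) [Field K] [NumberField K] (m k : ℕ) (H : Subgroup (Equiv.Perm (Fin m)))
      (Y : Subgroup (Equiv.Perm (Fin k))) (A A' C X₀ : ℝ) (n₁ n : ℕ)
      (G₁ : Subgroup (Equiv.Perm (Fin n₁))) (G : Subgroup (Equiv.Perm (Fin n))),
      (∃ X : ℝ, 0 < count K H X) → (∀ X : ℝ, X₀ ≤ X → (count K H X : ℝ) ≤ C * X ^ A) →
      ((0 < k ∧ Transitive Y ∧ 0 ≤ A ∧ A + k * (k + 1) / (2 * m) ≤ 3 / 2) ∨
        ((∃ X : ℝ, 0 < count K Y X) ∧ (∀ X : ℝ, X₀ ≤ X → (count K Y X : ℝ) ≤ C * X ^ A') ∧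
          k < 2 * m ∧ A + k * A' / m < 3 / 2)) →
      IsC2Wr H G₁ → IsProduct G₁ Y G → SolvedOver K G k (H × Y)) ∧
    -- (6) `(C₂ ≀ H) × Y` from the asymptotics for `H`, or for `H` and `Y`
    (∀ (m k : ℕ) (H : Subgroup (Equiv.Perm (Fin m))) (Y : Subgroup (Equiv.Perm (Fin k))) (n₁ n : ℕ)
      (G₁ : Subgroup (Equiv.Perm (Fin n₁))) (G : Subgroup (Equiv.Perm (Fin n))),
      IsC2Wr H G₁ → IsProduct G₁ Y G →
      (0 < k → Transitive Y → 1 / (minInd H : ℝ) + k * (k + 1) / (2 * m) ≤ 3 / 2 →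
        (LargeBase H → LargeBase G) ∧
        ∀ (K : Type) [Field K] [NumberField K], Asymptotic K H → SolvedOver K G k (H × Y)) ∧
      (k < 2 * m → 1 / (minInd H : ℝ) + k / (m * minInd Y) < 3 / 2 →
        (LargeBase H → LargeBase Y → LargeBase G) ∧
        ∀ (K : Type) [Field K] [NumberField K], Asymptotic K H → Asymptotic K Y →
          SolvedOver K G k (H × Y))) ∧
    -- (7) existence
    (∀ (Γ P : Type) [Group Γ] [MulAction Γ P] [FaithfulSMul Γ P] [MulAction.IsPretransitive Γ P]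
      [Finite P] [Nonempty P] (k j : ℕ) (Y : Subgroup (Equiv.Perm (Fin k))), Transitive Y →
      (∃ (n₁ n : ℕ) (T : Subgroup (Equiv.Perm (Fin n₁))) (G : Subgroup (Equiv.Perm (Fin n))),
        IsTower (fun (γ : Γ) (x : P) => γ • x) j T ∧ IsProduct T Y G) ∧
      ∀ (n₁ n : ℕ) (T : Subgroup (Equiv.Perm (Fin n₁))) (G : Subgroup (Equiv.Perm (Fin n))),
        IsTower (fun (γ : Γ) (x : P) => γ • x) j T → IsProduct T Y G →
          n₁ = 2 ^ j * Nat.card P ∧ n = n₁ * k ∧ Transitive T ∧ Transitive G) := by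
  obtain ⟨e, he, he1, heS, -⟩ := Pool.Agent.H44.MB.exists_eU
  have he0 := he.bound
  have he' : ∀ {n : ℕ}, 1 ≤ n → e n < (n + 1) / 2 := fun hn => Pool.Agent.H44.MB.e_lt he1 heS hn
  have h1 : ∀ (Γ P : Type) [Group Γ] [MulAction Γ P] [FaithfulSMul Γ P]
      [MulAction.IsPretransitive Γ P]
      [Finite P] [Nonempty P] (k j : ℕ) (Y : Subgroup (Equiv.Perm (Fin k))), 0 < k → Transitive Y →
      1 ≤ j → k * (k + 1) ≤ 2 ^ (j - 1) * Nat.card P →
      Nat.card P ^ 2 + k * (k + 1) ≤ 2 ^ j * Nat.card P →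
      ∀ (n₁ n : ℕ) (T : Subgroup (Equiv.Perm (Fin n₁))) (G : Subgroup (Equiv.Perm (Fin n))),
        IsTower (fun (γ : Γ) (x : P) => γ • x) j T → IsProduct T Y G →
          SolvedBy G k (Γ × Y) ∧
          ((∀ x y : Γ, x * y = y * x) → SolvedBy G k Y) ∧
          ((∀ x y : Y, x * y = y * x) → SolvedBy G k Γ) ∧
          ((∀ x y : Γ, x * y = y * x) → ((∀ x y : Y, x * y = y * x) ∨ (3 ≤ k ∧ Y = ⊤)) →
            ∀ (K : Type) [Field K] [NumberField K], Asymptotic K G) := by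
    intro Γ P _ _ _ _ _ _ k j Y hk hY hj h1 h2 n₁ n T G hT hG
    have hfinΓ : Finite Γ := Finite.of_injective _
      (MulAction.toPerm_injective : Function.Injective (MulAction.toPerm (α := Γ) (β := P)))
    have h := tower_prod he0 he' hk hY hj h1 h2 hT hG
    have h3 : (∀ x y : Γ, x * y = y * x) → SolvedBy G k Y := fun hc =>
      h.congr fun K _ _ => real_comm_left K Γ Y hc
    refine ⟨h, h3, fun hc => h.congr fun K _ _ => real_comm_right K Γ Y hc, ?_⟩
    rintro hc hd K _ _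
    refine ((h3 hc).2 K).2.2.1.2 ?_
    rcases hd with hd | ⟨hk3, rfl⟩
    · exact real_comm K Y hd
    · exact Pool.Agent.Q24.ML.Real.congr Subgroup.topEquiv.symm
        (Pool.Agent.H44.MB.real_sym K k hk3)
  refine ⟨h1, ?_, ?_, ?_, ?_, ?_⟩
  · intro m k j Y hm hk hY hc hj h2 h3 n₁ n T G hT hG K _ _
    have hnz : NeZero m := ⟨by omega⟩
    have hT' : IsTower (fun (γ : Equiv.Perm (Fin m)) (x : Fin m) => γ • x) j T := hT
    have h := h1 (Equiv.Perm (Fin m)) (Fin m) k j Y hk hY hj (by rw [Nat.card_fin]; exact h2)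
      (by rw [Nat.card_fin]; exact h3) n₁ n T G hT' hG
    exact ((h.2.2.1 hc).2 K).2.2.1.2 (Pool.Agent.H44.MB.real_sym K m hm)
  · intro Γ P _ _ _ _ _ _ k j Y hk hY hj h2 h3 h4 n₁ n T G hT hG
    exact tower_prod2 he0 he' hk hY hj h4 h2 h3 hT hG
  · intro K _ _ m k H Y A A' C X₀ n₁ n G₁ G hne hC hor hG₁ hG
    rcases hor with ⟨hk, hY, hA0, hA⟩ | ⟨hneY, hCY, hkm, hA⟩
    · exact step_prod he0 he' K H Y A C X₀ hk hY hne hC hA0 hA hG₁ hG
    · exact step_prod' he0 K H Y A A' C X₀ hne hneY hC hCY hkm hA hG₁ hG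
  · intro m k H Y n₁ n G₁ G hG₁ hG
    refine ⟨fun hk hY hA => ⟨fun h => step_large he0 he' H Y hk hY h hA hG₁ hG, fun K _ _ h =>
      step_asymp he0 he' K H Y hk hY h hA hG₁ hG⟩, fun hkm hA => ⟨fun h h' =>
      step_large' he0 H Y h h' hkm hA hG₁ hG, fun K _ _ h h' =>
      step_asymp' he0 K H Y h h' hkm hA hG₁ hG⟩⟩
  · intro Γ P _ _ _ _ _ _ k j Y hY
    constructor
    · obtain ⟨n₁, T, hT⟩ := tower_exists (Γ := Γ) (P := P) j
      obtain ⟨n, G, hG⟩ := exists_product T Y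
      exact ⟨n₁, n, T, G, hT, hG⟩
    · intro n₁ n T G hT hG
      obtain ⟨h2, h3, -⟩ := tower_data (P := P) j T hT
      obtain ⟨h4, h5⟩ := product_data hG
      exact ⟨h2, h4, h3, h5 h3 hY⟩
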