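import Mathlib
import Pool.Agent.H44.MB.Crit
import Pool.Agent.H44.MB.SubG

/-!
# Malle's conjecture over large base fields for `C₂ ≀ (Γ, P)`, few points have a small stabilizer

Let the finite group `Γ` act faithfully and transitively on `P`. Let `U_i` be subgroups of `Γ` whose
normal cores intersect trivially and `B_i ⊆ P` nonempty sets such that only elements of `U_i` fix all
points in `B_i`. There are exponents `e(n)`, less than `(n + 1) / 2` and `O((log n) ^ 2)`, which do not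
depend on anything, such that the following holds. If `∑ e(u_i) u_i |B_i| < a |P|`, where
`u_i = [Γ : U_i]`, then the number of extensions of a number field `K` with group `Γ`, acting on `P`, and
discriminant at most `X`, is `O(X ^ a)`. If this holds with `a = 3 / 2`, then Q1 holds for
`G = C₂ ≀ (Γ, P)`, with `n_K(G, X) ~ C X`, and the formula holds over a given number field `K` if and only
if `Γ` is a Galois group over `K`. For one subgroup the condition follows from
`u (u + 1) |B| < 3 |P|`.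

Examples: (a) `S_m` acting on the `k`-subsets of `{1, ..., m}`, `3 ≤ k ≤ m - 3`, `m ≥ 7`, and
`2 ≤ k ≤ m - 2` for large `m`; here the formula holds over all number fields. More generally transitive
groups `T ≤ S_m` which are transitive on the `k`-subsets. (b) The wreath products `A ≀ T` in product
action on `Ω ^ m`, `A` transitive on `Ω`, `T ≤ S_m` transitive, if `2 m |Ω| (m |Ω| + 1) < 3 |Ω| ^ m`, that
is `m = 3`, `|Ω| ≥ 7`, or `m = 4`, `|Ω| ≥ 4`, or `m ≥ 5`, `|Ω| ≥ 3`, or `m ≥ 8`, `|Ω| = 2`. Most of these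
actions are primitive.

The proof: the extensions `M` of `K` with group `Γ`, acting on `P`, are determined up to finitely many
choices by the fixed fields `F_i` of the groups `U_i`, and `F_i` is contained in the composite of `|B_i|`
conjugates of `M`; so `d_F_i ^ |P| ≤ d_M ^ (|B_i| u_i)`. The fields `F_i` are counted by the bounds of
Schmidt, Couveignes and Lemke Oliver-Thorne (library). The threshold `3 / 2` comes from a bound
`C d_M ^ (1/2 + ε) Y`, uniform in `Y`, for the number of quadratic extensions of `M` with relative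
discriminant of norm at most `Y`.
-/

set_option autoImplicit false

open Filter

namespace Pool.Agent.Results.MP_b39724_nt.SmallStabilizerIntersections

/-- The index of a permutation: `n` minus the number of its cycles, fixed points included. -/
def ind {n : ℕ} (g : Equiv.Perm (Fin n)) : ℕ := g.cycleType.sum - Multiset.card g.cycleType

/-- `ind(G)`: the minimum of the indices of the elements `g ≠ 1` of `G`. -/
noncomputable def minInd {n : ℕ} (G : Subgroup (Equiv.Perm (Fin n))) : ℕ :=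
  sInf {j : ℕ | ∃ g ∈ G, g ≠ 1 ∧ j = ind g}

/-- `K`-conjugacy: `h` is conjugate in `G` to `g ^ a`, where some `σ` in the Galois group of `K` acts
on the roots of unity of order dividing `|G|` by `ζ ↦ ζ ^ a`. -/
def KConj (K : Type) [Field K] {n : ℕ} (G : Subgroup (Equiv.Perm (Fin n))) (g h : G) : Prop :=
  ∃ (σ : AlgebraicClosure K ≃ₐ[K] AlgebraicClosure K) (a : ℕ) (x : G),
    (∀ ζ : AlgebraicClosure K, ζ ^ Nat.card G = 1 → σ ζ = ζ ^ a) ∧ h = x * g ^ a * x⁻¹

/-- `β_K(G)`: the number of `K`-conjugacy classes of elements of index `ind(G)`. -/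
noncomputable def beta (K : Type) [Field K] {n : ℕ} (G : Subgroup (Equiv.Perm (Fin n))) : ℕ :=
  Nat.card (Quot fun g h : {g : G // ind g.1 = minInd G} => KConj K G g.1 h.1)

/-- The small `G`-fields `L` over `K` with `d_L ≤ X`, inside the algebraic closure of `K`: the degree
is `n`, the Galois group acting on the `n` embeddings is `G` up to numbering, and the norm of the
relative discriminant is at most `X` (that is, `|disc L| ≤ X |disc K| ^ n`). -/
def Fields (K : Type) [Field K] [NumberField K] {n : ℕ} (G : Subgroup (Equiv.Perm (Fin n)))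
    (X : ℝ) : Set (IntermediateField K (AlgebraicClosure K)) :=
  {L | Module.finrank K L = n ∧
    (∃ e : (L →ₐ[K] AlgebraicClosure K) ≃ Fin n, ∀ π : Equiv.Perm (Fin n),
      π ∈ G ↔ ∃ σ : AlgebraicClosure K ≃ₐ[K] AlgebraicClosure K,
        ∀ φ : L →ₐ[K] AlgebraicClosure K, e (σ.toAlgHom.comp φ) = π (e φ)) ∧
    ∃ h : NumberField L,
      ((|@NumberField.discr L _ h| : ℤ) : ℝ) ≤ X * ((|NumberField.discr K| : ℤ) : ℝ) ^ n}

/-- `n_K(G, X)`: the number of small `G`-fields `L` over `K` with `d_L ≤ X`, up to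
`K`-isomorphism. -/
noncomputable def count (K : Type) [Field K] [NumberField K] {n : ℕ}
    (G : Subgroup (Equiv.Perm (Fin n))) (X : ℝ) : ℕ :=
  Nat.card (Quot fun L L' : Fields K G X => Nonempty (L.1 ≃ₐ[K] L'.1))

/-- The asymptotic formula of the problem over the number field `K`:
`n_K(G, X) ~ c X ^ (1 / ind(G)) (log X) ^ (β_K(G) - 1)` for some `c > 0`. -/
def Asymptotic (K : Type) [Field K] [NumberField K] {n : ℕ} (G : Subgroup (Equiv.Perm (Fin n))) :
    Prop :=
  ∃ c : ℝ, 0 < c ∧ Tendsto (fun X : ℝ => (count K G X : ℝ) /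
    (X ^ (1 / (minInd G : ℝ)) * Real.log X ^ (beta K G - 1))) atTop (nhds c)

/-- Q1 for the group `G`: there is a number field `K₀` such that the asymptotic formula holds over
every number field `K` containing `K₀`. -/
def LargeBase {n : ℕ} (G : Subgroup (Equiv.Perm (Fin n))) : Prop :=
  ∃ (K₀ : Type) (_ : Field K₀) (_ : NumberField K₀), ∀ (K : Type) [Field K] [NumberField K]
    [Algebra K₀ K], Asymptotic K G

/-- The finite group `X` is the Galois group of a finite Galois extension of `K`. -/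
def Realizable (K X : Type) [Field K] [Group X] : Prop :=
  ∃ (L : Type) (_ : Field L) (_ : Algebra K L) (_ : FiniteDimensional K L) (_ : IsGalois K L),
    Nonempty (X ≃* (L ≃ₐ[K] L))

/-- `G` is transitive. -/
def Transitive {n : ℕ} (G : Subgroup (Equiv.Perm (Fin n))) : Prop := ∀ i j, ∃ g ∈ G, g i = j

/-- Q1 holds for `G`, `ind(G) = 1`, `β_K(G) = 1` for all number fields `K`, and over a given number
field `K` the formula holds if and only if `G` is a Galois group over `K`. -/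
def Solved {n : ℕ} (G : Subgroup (Equiv.Perm (Fin n))) : Prop :=
  LargeBase G ∧ minInd G = 1 ∧ ∀ (K : Type) [Field K] [NumberField K],
    beta K G = 1 ∧ (Asymptotic K G ↔ Realizable K G)

/-- `G ≤ S_n` is, up to numbering, the group of all permutations `act γ` of `P`, `γ ∈ Γ`. -/
def IsAction {Γ P : Type} (act : Γ → P → P) {n : ℕ} (G : Subgroup (Equiv.Perm (Fin n))) : Prop :=
  ∃ f : Fin n ≃ P, ∀ π : Equiv.Perm (Fin n), π ∈ G ↔ ∃ γ : Γ, ∀ i, f (π i) = act γ (f i)

/-- `G ≤ S_n` is, up to numbering, the wreath product `C₂ ≀ (Γ, P)`: the group of all permutations of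
`P × {0, 1}` for which there is `γ ∈ Γ` such that they map the block `{x} × {0, 1}` to
`{act γ x} × {0, 1}`, for all `x ∈ P`. -/
def IsWreath {Γ P : Type} (act : Γ → P → P) {n : ℕ} (G : Subgroup (Equiv.Perm (Fin n))) : Prop :=
  ∃ f : Fin n ≃ P × Bool, ∀ π : Equiv.Perm (Fin n), π ∈ G ↔ ∃ γ : Γ, ∀ i, (f (π i)).1 = act γ (f i).1

/-- `Γ`, acting on `P`, has subgroups `U i` whose normal cores intersect trivially, and there are
nonempty sets `B i` of points such that every element of `Γ` which fixes all points in `B i` is in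
`U i`, with `∑ e (u i) (u i) |B i| < a |P|`, where `u i` is the index of `U i`. -/
def Few (e : ℕ → ℝ) (a : ℝ) (Γ P : Type) [Group Γ] [MulAction Γ P] : Prop :=
  ∃ (r : ℕ) (U : Fin r → Subgroup Γ) (B : Fin r → Finset P),
    (⨅ i, (U i).normalCore = ⊥) ∧ (∀ i, (B i).Nonempty) ∧
    (∀ i, ∀ γ : Γ, (∀ x ∈ B i, γ • x = x) → γ ∈ U i) ∧
    ∑ i, e (U i).index * (U i).index * (B i).card < a * Nat.card P

/-- The image of the `k`-subset `S` of `{1, ..., m}` under `g ∈ S_m`. -/
def imageOf {m k : ℕ} (g : Equiv.Perm (Fin m)) (S : {S : Finset (Fin m) // S.card = k}) :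
    {S : Finset (Fin m) // S.card = k} :=
  ⟨S.1.map g.toEmbedding, by rw [Finset.card_map, S.2]⟩

section proof

open Pool.Agent.Q17.ML2 (IsC2WrS parts)
open Pool.Agent.H44.MB

variable {H : Type} [Group H] [Finite H] {W U : Subgroup H} {n : ℕ}
  {G : Subgroup (Equiv.Perm (Fin n))}

theorem minInd_eq (hG : IsC2WrS H W G) : minInd G = 1 :=
  (parts.pg H W n G hG).2.1.csInf_eq

theorem beta_eq (K : Type) [Field K] (hG : IsC2WrS H W G) : beta K G = 1 := by
  have h1 := minInd_eq hG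
  obtain ⟨-, hl, hc, -⟩ := parts.pg H W n G hG
  rw [beta, Nat.card_eq_one_iff_unique]
  constructor
  · constructor
    intro a b
    obtain ⟨a, rfl⟩ := Quot.exists_rep a
    obtain ⟨b, rfl⟩ := Quot.exists_rep b
    apply Quot.sound
    obtain ⟨x, hx⟩ := isConj_iff.1 (hc a.1 b.1 (a.2.trans h1) (b.2.trans h1))
    exact ⟨AlgEquiv.refl, 1, x, fun ζ _ => by simp, by rw [pow_one, hx]⟩
  · obtain ⟨g, hg, -, hg1⟩ := hl.1
    exact ⟨Quot.mk _ ⟨⟨g, hg⟩, hg1.symm.trans h1.symm⟩⟩

theorem asymptotic_iff (K : Type) [Field K] [NumberField K] (hG : IsC2WrS H W G) :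
    Asymptotic K G ↔
      ∃ c : ℝ, 0 < c ∧ Tendsto (fun X : ℝ => (count K G X : ℝ) / X) atTop (nhds c) := by
  unfold Asymptotic
  rw [minInd_eq hG, beta_eq K hG]
  simp

theorem of_asymp (K : Type) [Field K] [NumberField K]
    (hG : IsC2WrS H W G) (h : Asymptotic K G) : Realizable K G := by
  obtain ⟨c, hc, hlim⟩ := (asymptotic_iff K hG).1 h
  obtain ⟨X, hX⟩ := (hlim.eventually (lt_mem_nhds hc)).exists
  have h1 : count K G X ≠ 0 := by
    intro h0
    rw [h0] at hX
    simp at hX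
  have h3 : Nonempty (Quot fun L L' : Fields K G X => Nonempty (L.1 ≃ₐ[K] L'.1)) :=
    (Nat.card_pos_iff.1 (Nat.pos_of_ne_zero h1)).1
  obtain ⟨q⟩ := h3
  obtain ⟨⟨L, hL⟩, -⟩ := Quot.exists_rep q
  exact Pool.Agent.Q17.ML2.real_group_of_cnt parts Pool.Agent.Q17.ML2.rg K hG X ⟨L, hL⟩

theorem wreath_main {e : ℕ → ℝ} (he : BoundE e) {Γ P : Type} [Group Γ] [MulAction Γ P]
    [FaithfulSMul Γ P] [MulAction.IsPretransitive Γ P] [Finite P] [Nonempty P]
    (hF : FewA e (3 / 2) Γ P) (hG : IsWreath (fun (γ : Γ) (x : P) => γ • x) G) :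
    Solved G ∧ ∀ (K : Type) [Field K] [NumberField K], (Realizable K Γ ↔ Realizable K G) := by
  have hfinΓ : Finite Γ := Finite.of_injective _
    (MulAction.toPerm_injective : Function.Injective (MulAction.toPerm (α := Γ) (β := P)))
  obtain ⟨x₀⟩ := (inferInstance : Nonempty P)
  obtain ⟨ε, hε⟩ := exists_quot (Γ := Γ) (P := P) x₀
  have hW := core_stab (Γ := Γ) (P := P) x₀
  have hG' := isC2WrS_act ε hε hG
  have hF' : FewA e (3 / 2) Γ (Γ ⧸ MulAction.stabilizer Γ x₀) := hF.of_equiv ε.symm fun γ x => by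
    apply ε.injective
    rw [Equiv.apply_symm_apply, hε, Equiv.apply_symm_apply]
  have hasy : ∀ (K : Type) [Field K] [NumberField K], Realizable K Γ → Asymptotic K G := by
    intro K _ _ hK
    exact (asymptotic_iff K hG').2 (few_asymp he K hW le_rfl hF'
      ((Pool.Agent.Q24.ML.real_iff K (AlgebraicClosure K) Γ).1 hK) G hG')
  obtain ⟨φ, hφ⟩ := exists_hom hW hG'
  have hdown : ∀ (K : Type) [Field K] [NumberField K], Realizable K G → Realizable K Γ := by
    intro K _ _ hK
    exact Pool.Agent.Q24.ML.Real.of_surj φ hφ hK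
  refine ⟨⟨?_, minInd_eq hG', fun K _ _ => ⟨beta_eq K hG', of_asymp K hG',
    fun h => hasy K (hdown K h)⟩⟩, fun K _ _ => ⟨fun h => of_asymp K hG' (hasy K h), hdown K⟩⟩
  obtain ⟨K₀, i1, i2, hK₀⟩ := Pool.Agent.Q248.ML.exists_base Γ
  exact ⟨K₀, i1, i2, fun K _ _ _ => hasy K (hK₀ K)⟩

/-- two descriptions of the same wreath product -/
theorem wreath_congr {Γ Γ' P : Type} {act : Γ → P → P} {act' : Γ' → P → P}
    (h1 : ∀ γ, ∃ γ', ∀ x, act γ x = act' γ' x) (h2 : ∀ γ', ∃ γ, ∀ x, act γ x = act' γ' x)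
    (hG : IsWreath act G) : IsWreath act' G := by
  obtain ⟨f, hf⟩ := hG
  refine ⟨f, fun π => ?_⟩
  rw [hf]
  constructor
  · rintro ⟨γ, hγ⟩
    obtain ⟨γ', hγ'⟩ := h1 γ
    exact ⟨γ', fun i => by rw [hγ, hγ']⟩
  · rintro ⟨γ', hγ'⟩
    obtain ⟨γ, hγ⟩ := h2 γ'
    exact ⟨γ, fun i => by rw [hγ', hγ]⟩

theorem subsets_main {e : ℕ → ℝ} (he : BoundE e) {m k : ℕ} (hk : 1 ≤ k) (hkm : k + 1 ≤ m)
    (hc : e m * m * 2 < 3 / 2 * (m.choose k : ℝ)) (T : Subgroup (Equiv.Perm (Fin m)))
    (h1 : Transitive T)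
    (h2 : ∀ S S' : {S : Finset (Fin m) // S.card = k}, ∃ g ∈ T, imageOf g S = S')
    (hG : IsWreath (fun (g : T) (S : {S : Finset (Fin m) // S.card = k}) => imageOf g.1 S) G) :
    Solved G ∧ ∀ (K : Type) [Field K] [NumberField K], (Realizable K T ↔ Realizable K G) := by
  have i1 : FaithfulSMul T (Sb m k) := sb_faithful hk hkm T
  have i2 : MulAction.IsPretransitive T (Sb m k) := ⟨fun S S' => by
    obtain ⟨g, hg, hgS⟩ := h2 S S'
    exact ⟨⟨g, hg⟩, hgS⟩⟩
  have i3 : Nonempty (Sb m k) := by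
    obtain ⟨S, -, -⟩ := exists_pair (m := m) (k := k) ⟨0, by omega⟩ hk hkm
    exact ⟨S⟩
  refine wreath_main he (Γ := T) (P := Sb m k) (few_sb_gen he.1 hk hkm T h1 hc) ?_
  exact wreath_congr (fun γ => ⟨γ, fun _ => rfl⟩) (fun γ => ⟨γ, fun _ => rfl⟩) hG

theorem subsets_sym {e : ℕ → ℝ} (he : BoundE e) {m k : ℕ} (hm : 3 ≤ m) (hk : 1 ≤ k)
    (hkm : k + 1 ≤ m) (hc : e m * m * 2 < 3 / 2 * (m.choose k : ℝ))
    (hG : IsWreath (fun (g : Equiv.Perm (Fin m)) (S : {S : Finset (Fin m) // S.card = k}) =>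
      imageOf g S) G) :
    Solved G ∧ ∀ (K : Type) [Field K] [NumberField K], Asymptotic K G := by
  have hG' : IsWreath (fun (g : (⊤ : Subgroup (Equiv.Perm (Fin m))))
      (S : {S : Finset (Fin m) // S.card = k}) => imageOf g.1 S) G :=
    wreath_congr (fun γ => ⟨⟨γ, Subgroup.mem_top _⟩, fun _ => rfl⟩)
      (fun γ => ⟨γ.1, fun _ => rfl⟩) hG
  have h3 := subsets_main he hk hkm hc ⊤
    (fun x y => ⟨Equiv.swap x y, Subgroup.mem_top _, Equiv.swap_apply_left x y⟩)
    (fun S S' => by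
      obtain ⟨g, hg⟩ := sb_perm S S'
      exact ⟨g, Subgroup.mem_top _, hg⟩) hG'
  refine ⟨h3.1, fun K _ _ => (h3.1.2.2 K).2.2 ((h3.2 K).1 ?_)⟩
  exact (real_sym K m hm).congr Subgroup.topEquiv.symm

end proof

end Pool.Agent.Results.MP_b39724_nt.SmallStabilizerIntersections

open Pool.Agent.Results.MP_b39724_nt.SmallStabilizerIntersections in
/-- (1) The exponents `e`, the upper bound for the number of extensions with group `Γ`, acting on `P`,
and the criterion for `C₂ ≀ (Γ, P)`. (2) One subgroup. (3) `k`-subsets. (4) Product actions. (5) Such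
groups `G` exist and are transitive, of degree `2 |P|`. -/
theorem Pool.Agent.Results.MP_b39724_nt.SmallStabilizerIntersections.result :
    -- (1) the criterion
    (∃ e : ℕ → ℝ, e 1 = 0 ∧
      (∀ n : ℕ, 2 ≤ n → e n ≤ ((n : ℝ) + 2) * (n - 1) / (4 * (n - (n / n.minFac : ℕ)))) ∧
      (∀ c : ℝ, 1 / (8 * (Real.log 2) ^ 2) < c → ∀ᶠ n : ℕ in atTop, e n ≤ c * (Real.log n) ^ 2) ∧
      (∀ (Γ P : Type) [Group Γ] [MulAction Γ P] [FaithfulSMul Γ P] [MulAction.IsPretransitive Γ P]
        [Finite P] [Nonempty P],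
        (∀ a : ℝ, Few e a Γ P → ∀ (n : ℕ) (G : Subgroup (Equiv.Perm (Fin n))),
          IsAction (fun (γ : Γ) (x : P) => γ • x) G → ∀ (K : Type) [Field K] [NumberField K],
            ∃ C : ℝ, ∀ X : ℝ, 1 ≤ X → (count K G X : ℝ) ≤ C * X ^ a) ∧
        (Few e (3 / 2) Γ P → ∀ (n : ℕ) (G : Subgroup (Equiv.Perm (Fin n))),
          IsWreath (fun (γ : Γ) (x : P) => γ • x) G →
            Solved G ∧ ∀ (K : Type) [Field K] [NumberField K], (Realizable K Γ ↔ Realizable K G)))) ∧
    -- (2) one subgroup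
    (∀ (Γ P : Type) [Group Γ] [MulAction Γ P] [FaithfulSMul Γ P] [MulAction.IsPretransitive Γ P]
      [Finite P] [Nonempty P] (U : Subgroup Γ) (B : Finset P), U.normalCore = ⊥ → B.Nonempty →
      (∀ γ : Γ, (∀ x ∈ B, γ • x = x) → γ ∈ U) → U.index * (U.index + 1) * B.card < 3 * Nat.card P →
      ∀ (n : ℕ) (G : Subgroup (Equiv.Perm (Fin n))), IsWreath (fun (γ : Γ) (x : P) => γ • x) G →
        Solved G ∧ ∀ (K : Type) [Field K] [NumberField K], (Realizable K Γ ↔ Realizable K G)) ∧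
    -- (3) `k`-subsets
    (∃ m₀ : ℕ, ∀ m k : ℕ, (7 ≤ m ∧ 3 ≤ k ∧ k + 3 ≤ m) ∨ (m₀ ≤ m ∧ 2 ≤ k ∧ k + 2 ≤ m) →
      (∀ (n : ℕ) (G : Subgroup (Equiv.Perm (Fin n))),
        IsWreath (fun (g : Equiv.Perm (Fin m)) (S : {S : Finset (Fin m) // S.card = k}) =>
          imageOf g S) G → Solved G ∧ ∀ (K : Type) [Field K] [NumberField K], Asymptotic K G) ∧
      ∀ T : Subgroup (Equiv.Perm (Fin m)), Transitive T →
        (∀ S S' : {S : Finset (Fin m) // S.card = k}, ∃ g ∈ T, imageOf g S = S') →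
        ∀ (n : ℕ) (G : Subgroup (Equiv.Perm (Fin n))),
        IsWreath (fun (g : T) (S : {S : Finset (Fin m) // S.card = k}) => imageOf g.1 S) G →
        Solved G ∧ ∀ (K : Type) [Field K] [NumberField K], (Realizable K T ↔ Realizable K G)) ∧
    -- (4) product actions
    (∀ (A Ω : Type) [Group A] [MulAction A Ω] [MulAction.IsPretransitive A Ω] [Finite Ω] (m : ℕ)
      (T : Subgroup (Equiv.Perm (Fin m))), 1 ≤ m → Transitive T → 2 ≤ Nat.card Ω →
      2 * (m * Nat.card Ω) * (m * Nat.card Ω + 1) < 3 * Nat.card Ω ^ m →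
      ∀ (n : ℕ) (G : Subgroup (Equiv.Perm (Fin n))),
        IsWreath (fun (p : (Fin m → A) × T) (x : Fin m → Ω) (i : Fin m) =>
          p.1 i • x (p.2.1⁻¹ i)) G → Solved G) ∧
    -- (5) existence
    (∀ (Γ P : Type) [Group Γ] [MulAction Γ P] [MulAction.IsPretransitive Γ P] [Finite P],
      ∃ (n : ℕ) (G : Subgroup (Equiv.Perm (Fin n))), n = 2 * Nat.card P ∧
        IsWreath (fun (γ : Γ) (x : P) => γ • x) G ∧ Transitive G) := by
  obtain ⟨e, he, he1, heS, helog⟩ := Pool.Agent.H44.MB.exists_e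
  refine ⟨⟨e, he1, fun n hn => ?_, helog, ?_⟩, ?_, ?_, ?_, ?_⟩
  · have h1 := heS n hn
    have h2 : Pool.Agent.W222.UABC.eS n =
        ((n : ℝ) + 2) * (n - 1) / (4 * (n - (n / n.minFac : ℕ))) := by
      unfold Pool.Agent.W222.UABC.eS
      have h3 : n / n.minFac ≤ n := Nat.div_le_self _ _
      rw [Nat.cast_mul, Nat.cast_sub h3, Nat.cast_sub (by omega : 1 ≤ n)]
      push_cast
      ring
    rw [← h2]
    exact h1
  · intro Γ P _ _ _ _ _ _
    refine ⟨fun a hF n G hG K _ _ => ?_, fun hF n G hG => wreath_main he hF hG⟩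
    exact Pool.Agent.H44.MB.few_upper he K hF G hG
  · intro Γ P _ _ _ _ _ _ U B hU hBn hB hc n G hG
    have hfinΓ : Finite Γ := Finite.of_injective _
      (MulAction.toPerm_injective : Function.Injective (MulAction.toPerm (α := Γ) (β := P)))
    refine wreath_main he (Pool.Agent.H44.MB.few_base3 (3 / 2) U hU B hB hBn ?_) hG
    have hU1 : 1 ≤ U.index := Nat.one_le_iff_ne_zero.2 Subgroup.index_ne_zero_of_finite
    have h4 := Pool.Agent.H44.MB.e_lt he1 heS hU1
    have h5 : (U.index : ℝ) * (U.index + 1) * B.card < 3 * (Nat.card P : ℝ) := by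
      exact_mod_cast hc
    have h6 : (0 : ℝ) ≤ U.index * B.card := by positivity
    nlinarith
  · obtain ⟨m₀, hm₀⟩ := Pool.Agent.H44.MB.sb_ineq2 helog
    refine ⟨max m₀ 3, ?_⟩
    intro m k hmk
    have h1 : 3 ≤ m ∧ 1 ≤ k ∧ k + 1 ≤ m ∧ e m * m * 2 < 3 / 2 * (m.choose k : ℝ) := by
      rcases hmk with ⟨h1, h2, h3⟩ | ⟨h1, h2, h3⟩
      · exact ⟨by omega, by omega, by omega, Pool.Agent.H44.MB.sb_ineq he1 heS h1 h2 h3⟩
      · exact ⟨(le_max_right _ _).trans h1, by omega, by omega,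
          hm₀ m k ((le_max_left _ _).trans h1) h2 h3⟩
    obtain ⟨h2, h3, h4, h5⟩ := h1
    exact ⟨fun n G hG => subsets_sym he h2 h3 h4 h5 hG,
      fun T hT1 hT2 n G hG => subsets_main he h3 h4 h5 T hT1 hT2 hG⟩
  · intro A Ω _ _ _ _ m T hm hT hΩ hc n G hG
    have i1 : Nonempty Ω := by
      have : 0 < Nat.card Ω := by omega
      exact (Nat.card_pos_iff.1 this).1
    have i2 : MulAction.IsPretransitive (Pool.Agent.H44.MB.prd A Ω m T) (Fin m → Ω) :=
      Pool.Agent.H44.MB.prd_transitive A Ω m T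
    refine (wreath_main he (Γ := Pool.Agent.H44.MB.prd A Ω m T) (P := Fin m → Ω)
      (Pool.Agent.H44.MB.few_prd3 he.1 he1 heS hm hT hΩ hc) ?_).1
    refine wreath_congr (fun p => ⟨Pool.Agent.H44.MB.prdMk A Ω m T p.2.2 p.1, fun x => ?_⟩)
      (fun γ => ?_) hG
    · funext i
      exact (Pool.Agent.H44.MB.prdMk_apply A Ω m T p.2.2 p.1 x i).symm
    · obtain ⟨a, σ, hσ, ha⟩ := γ.2
      refine ⟨(a, ⟨σ, hσ⟩), fun x => ?_⟩
      funext i
      exact (ha x i).symm
  · intro Γ P _ _ _ _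
    exact Pool.Agent.NH85.ML.existsX Γ P
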