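import Mathlib
import Pool.Agent.H44.PT.Twr
import Pool.Agent.H44.PT.SPW
import Pool.Agent.H44.PT.BLK
import Pool.Agent.H44.PT.EXB
import Pool.Agent.H44.PT.NXT
import Pool.Agent.H44.MB.Exp
import Pool.Agent.H44.MB.ChnB

/-!
# Malle's conjecture over large base fields for towers over every group

Let `H ≤ S_m` be ANY transitive group. A step with blocks of size `s` replaces a transitive group `H'` by
`C₂ ^ Δ ⋊ H'`, the group of all permutations `(x, b) ↦ (h x, a(δ) b)`, `h ∈ H'`, `x ∈ δ ∈ Δ`, where `Δ`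
is a system of blocks of `H'` of size `s` and all permutations `≠ 1` in `H'` move more than `s` points;
for `s = 1` it is the wreath product `C₂ ≀ H'`. Let `G` be obtained from `H` by `j + 1` steps, with
arbitrary block systems, with blocks of size `r` in the last step and at least `r` in the others; its
degree is `2 ^ (j + 1) m`. If `r (m + 1) ≤ 2 ^ (j + 1) + 1`, then there is a number field `K₀` such that
`n_K(G, X) ~ C X ^ (1 / r)` for all number fields `K ⊇ K₀`, as predicted (`ind(G) = r`, `β_K(G) = 1`),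
and over a given number field `K` the formula holds if and only if `H` is a Galois group over `K`; for
`H = S_m` it holds over all number fields. For `r = 1` and blocks of size `1` this is the iterated wreath
product `C₂ ≀ (C₂ ≀ ⋯ ≀ (C₂ ≀ H))` with `j + 1` factors, and the condition is `m ≤ 2 ^ (j + 1)`. So the
formula for all these towers over `K` is equivalent to the inverse Galois problem over `K` for all finite
groups. If `H` has a system of blocks of size `r` and all its permutations `≠ 1` move more than `r`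
points, then such towers exist for all `j`.

The number of steps depends only on the steps of a chain of subgroups between the point stabilizer of
`H` and `H`, not on the degree: if the indices in the chain are at most `2 ^ (i + 1) - 2`, `i ≥ 1`, then
`r (2 ^ (i + 1) + 1) ≤ 2 ^ (j + 1) + 1` is enough; if they are at most `t`, `t` large, even
`2 ^ (j + 1) ≥ c r (log t) ^ 2`, where `c > 1 / (4 (log 2) ^ 2) = 0.52...`. Prime indices may be about
twice as large, at most `2 ^ (i + 2) - 2`. So two steps are enough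
for `r = 1` and all `H` for which the indices are `2`, `3`, `5`, for example the supersolvable groups of
order `2 ^ a 3 ^ b 5 ^ c`, of any degree.

Shorter towers are enough if `H` has few extensions: if `N_K(H; X) = O(X ^ A)` with
`A < 1 / (2 r) + 2 ^ j / r`, the formula holds over `K` for the tower with `j + 1` steps. For `j = 0` this
is `A < 3 / (2 r)`. In particular, if the formula over `K` holds for `H`, then it holds for ALL towers of
at least two steps over `H`, and for one step with blocks of size `r` if `2 r < 3 ind(H)`; so the same is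
true for Q1 (for two steps and more the condition on `A` is automatic, since the elements of index
`ind(H)` move at most `2 ind(H)` points, so that all blocks have less than `2 ind(H)` points).

The proof. The fields with the group `C₂ ^ Δ ⋊ H'` are the composita `P F`, where `P` has the group `H'`,
`M ⊆ P`, `[P : M] = s`, is the subfield which corresponds to `Δ`, and `F` is a quadratic extension of `M`;
for fixed `P` and `M` their number is `~ c X ^ (1 / s)` (library). New are two bounds. (a) The number of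
all quadratic extensions `F` of `M` with `|d_(PF)| ≤ Y ^ s d_P ^ 2` is
`≤ C |d_M| ^ (1/2 + ε) |d_P| ^ ε Y`, where `C` depends on `ε`, `s` and the degree of `M` only; so the sum
over `P` converges if `N_K(H'; X) = O(X ^ A)` with `A < 3 / (2 s)`. (b) If `N_K(H'; X) = O(X ^ A)`, then
the number for `C₂ ^ Δ ⋊ H'` is `O(X ^ (A' + ε))`, `A' = max (1 / s, A / 2 + 1 / (4 s))`, since only `P`
with `d_P ≤ X ^ (1/2)` contribute. So along the tower the exponent tends to at most `1 / r`, until it is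
below `3 / (2 r)`. At the bottom we use the bounds of Schmidt, Couveignes and Lemke Oliver-Thorne for the
number of all extensions of degree `m` (library, over all number fields, with constants depending on the
degree of the field only), with exponent less than `(m + 1) / 2` and `O((log m) ^ 2)`; for a chain with
indices `t_1, ..., t_k` (from below) they are applied to each step, which gives the exponent
`e(t_1) + e(t_2) / t_1 + e(t_3) / (t_1 t_2) + ⋯`.

Written with helper17 (`PT/EXB`), helper55 (`PT/GAL`, `PT/FIB`), helper56 (`PT/NXT`), helper67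
(`PT/BLK`) and helper77 (`PT/SPW`).
-/

set_option autoImplicit false

open Filter

namespace Pool.Agent.Results.MP_b39724_nt.TowersOverAnyGroup

/-- The index of a permutation: `n` minus the number of its cycles, fixed points included. -/
def ind {n : ℕ} (g : Equiv.Perm (Fin n)) : ℕ := g.cycleType.sum - Multiset.card g.cycleType

/-- `ind(G)`: the minimum of the indices of the elements `g ≠ 1` of `G`. -/
noncomputable def minInd {n : ℕ} (G : Subgroup (Equiv.Perm (Fin n))) : ℕ :=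
  sInf {j : ℕ | ∃ g ∈ G, g ≠ 1 ∧ j = ind g}

/-- `K`-conjugacy: `h` is conjugate in `G` to `g ^ a`, where some `σ` in the Galois group of `K` acts
on the roots of unity of order dividing `|G|` by `ζ ↦ ζ ^ a`. -/
def KConj (K : Type) [Field K] {n : ℕ} (G : Subgroup (Equiv.Perm (Fin n))) (g h : G) : Prop :=
  ∃ (σ : AlgebraicClosure K ≃ₐ[K] AlgebraicClosure K) (a : ℕ) (x : G),
    (∀ ζ : AlgebraicClosure K, ζ ^ Nat.card G = 1 → σ ζ = ζ ^ a) ∧ h = x * g ^ a * x⁻¹

/-- `β_K(G)`: the number of `K`-conjugacy classes of elements of index `ind(G)`. -/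
noncomputable def beta (K : Type) [Field K] {n : ℕ} (G : Subgroup (Equiv.Perm (Fin n))) : ℕ :=
  Nat.card (Quot fun g h : {g : G // ind g.1 = minInd G} => KConj K G g.1 h.1)

/-- The small `G`-fields `L` over `K` with `d_L ≤ X`, inside the algebraic closure of `K`: the degree
is `n`, the Galois group acting on the `n` embeddings is `G` up to numbering, and the norm of the
relative discriminant is at most `X` (that is, `|disc L| ≤ X |disc K| ^ n`). -/
def Fields (K : Type) [Field K] [NumberField K] {n : ℕ} (G : Subgroup (Equiv.Perm (Fin n)))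
    (X : ℝ) : Set (IntermediateField K (AlgebraicClosure K)) :=
  {L | Module.finrank K L = n ∧
    (∃ e : (L →ₐ[K] AlgebraicClosure K) ≃ Fin n, ∀ π : Equiv.Perm (Fin n),
      π ∈ G ↔ ∃ σ : AlgebraicClosure K ≃ₐ[K] AlgebraicClosure K,
        ∀ φ : L →ₐ[K] AlgebraicClosure K, e (σ.toAlgHom.comp φ) = π (e φ)) ∧
    ∃ h : NumberField L,
      ((|@NumberField.discr L _ h| : ℤ) : ℝ) ≤ X * ((|NumberField.discr K| : ℤ) : ℝ) ^ n}

/-- `n_K(G, X)`: the number of small `G`-fields `L` over `K` with `d_L ≤ X`, up to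
`K`-isomorphism. -/
noncomputable def count (K : Type) [Field K] [NumberField K] {n : ℕ}
    (G : Subgroup (Equiv.Perm (Fin n))) (X : ℝ) : ℕ :=
  Nat.card (Quot fun L L' : Fields K G X => Nonempty (L.1 ≃ₐ[K] L'.1))

/-- The asymptotic formula of the problem over the number field `K`:
`n_K(G, X) ~ c X ^ (1 / ind(G)) (log X) ^ (β_K(G) - 1)` for some `c > 0`. -/
def Asymptotic (K : Type) [Field K] [NumberField K] {n : ℕ} (G : Subgroup (Equiv.Perm (Fin n))) :
    Prop :=
  ∃ c : ℝ, 0 < c ∧ Tendsto (fun X : ℝ => (count K G X : ℝ) /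
    (X ^ (1 / (minInd G : ℝ)) * Real.log X ^ (beta K G - 1))) atTop (nhds c)

/-- Q1 for the group `G`: there is a number field `K₀` such that the asymptotic formula holds over
every number field `K` containing `K₀`. -/
def LargeBase {n : ℕ} (G : Subgroup (Equiv.Perm (Fin n))) : Prop :=
  ∃ (K₀ : Type) (_ : Field K₀) (_ : NumberField K₀), ∀ (K : Type) [Field K] [NumberField K]
    [Algebra K₀ K], Asymptotic K G

/-- The finite group `X` is the Galois group of a finite Galois extension of `K`. -/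
def Realizable (K X : Type) [Field K] [Group X] : Prop :=
  ∃ (L : Type) (_ : Field L) (_ : Algebra K L) (_ : FiniteDimensional K L) (_ : IsGalois K L),
    Nonempty (X ≃* (L ≃ₐ[K] L))

/-- `G` is transitive. -/
def Transitive {n : ℕ} (G : Subgroup (Equiv.Perm (Fin n))) : Prop := ∀ i j, ∃ g ∈ G, g i = j

/-- `G ≤ S_n` is, up to numbering, the group of all permutations `act γ` of `P`, `γ ∈ Γ`. -/
def IsAction {Γ P : Type} (act : Γ → P → P) {n : ℕ} (G : Subgroup (Equiv.Perm (Fin n))) : Prop :=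
  ∃ f : Fin n ≃ P, ∀ π : Equiv.Perm (Fin n), π ∈ G ↔ ∃ γ : Γ, ∀ i, f (π i) = act γ (f i)

/-- `G = C₂ ^ Δ ⋊ H`, where `Δ` is a system of blocks of size `r` of `H ≤ S_m` (the fibres of `δ`), and
every `h ≠ 1` in `H` moves more than `r` points: `G` consists, up to numbering, of all permutations
`(x, b) ↦ (h x, a (δ x) b)` of `{1, ..., m} × {0, 1}`. For `r = 1` this is the wreath product `C₂ ≀ H`. -/
def IsBlockStep (r : ℕ) {m : ℕ} (H : Subgroup (Equiv.Perm (Fin m))) {n : ℕ}
    (G : Subgroup (Equiv.Perm (Fin n))) : Prop :=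
  ∃ (D : Type) (δ : Fin m → D),
    (∀ h ∈ H, ∀ x y : Fin m, δ x = δ y → δ (h x) = δ (h y)) ∧
    (∀ x : Fin m, {y : Fin m | δ y = δ x}.ncard = r) ∧
    (∀ h ∈ H, h ≠ 1 → r < {x : Fin m | h x ≠ x}.ncard) ∧
    ∃ f : Fin n ≃ Fin m × Bool, ∀ π : Equiv.Perm (Fin n), π ∈ G ↔
      ∃ h ∈ H, ∃ a : D → Equiv.Perm Bool, ∀ i, f (π i) = (h (f i).1, a (δ (f i).1) (f i).2)

/-- `G` is obtained from the group `Γ`, acting on `P` by `act`, by `j` steps with blocks of sizes
at least `r`. -/
def IsTower {Γ P : Type} (act : Γ → P → P) (r : ℕ) :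
    ℕ → ∀ {n : ℕ}, Subgroup (Equiv.Perm (Fin n)) → Prop
  | 0, _, G => IsAction act G
  | j + 1, _, G => ∃ (m : ℕ) (H : Subgroup (Equiv.Perm (Fin m))) (s : ℕ),
      IsTower act r j H ∧ r ≤ s ∧ IsBlockStep s H G

/-- `G` is obtained from the group `Γ`, acting on `P` by `act`, by `j + 1` steps; the blocks have
size `r` in the last step, and at least `r` in the others. -/
def IsTopOfTower {Γ P : Type} (act : Γ → P → P) (r j : ℕ) {n : ℕ}
    (G : Subgroup (Equiv.Perm (Fin n))) : Prop :=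
  ∃ (m : ℕ) (H : Subgroup (Equiv.Perm (Fin m))), IsTower act r j H ∧ IsBlockStep r H G

/-- `V` is the bottom of a chain `V = V₀ ≤ V₁ ≤ ⋯ ≤ V_r = Γ` of subgroups, and `ts` is the list of the
indices `[V₁ : V₀]`, `[V₂ : V₁]`, ... -/
def Chain {Γ : Type} [Group Γ] : List ℕ → Subgroup Γ → Prop
  | [], V => V = ⊤
  | t :: ts, V => ∃ V' : Subgroup Γ, V ≤ V' ∧ V.relIndex V' = t ∧ Chain ts V'

/-- Q1 holds for the group `G`, and for all number fields `K`: `ind(G) = r`, `β_K(G) = 1`, and the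
formula for `G` holds over `K` if and only if `G`, or equivalently `Γ`, is a Galois group over `K`. -/
def SolvedBy {n : ℕ} (G : Subgroup (Equiv.Perm (Fin n))) (r : ℕ) (Γ : Type) [Group Γ] : Prop :=
  LargeBase G ∧ ∀ (K : Type) [Field K] [NumberField K], minInd G = r ∧ beta K G = 1 ∧
    (Asymptotic K G ↔ Realizable K Γ) ∧ (Realizable K G ↔ Realizable K Γ)

section proof

open Pool.Agent.NH85.ML (Good img)
open Pool.Agent.H44.MB

variable {n : ℕ} {G : Subgroup (Equiv.Perm (Fin n))}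

/-- The elements of minimal index `r` are conjugate. -/
structure Consts (G : Subgroup (Equiv.Perm (Fin n))) (r : ℕ) : Prop where
  least : IsLeast {j : ℕ | ∃ g ∈ G, g ≠ 1 ∧ j = g.cycleType.sum - Multiset.card g.cycleType} r
  conj : ∀ g ∈ G, ∀ h ∈ G, g.cycleType.sum - Multiset.card g.cycleType = r →
      h.cycleType.sum - Multiset.card h.cycleType = r → ∃ x ∈ G, h = x * g * x⁻¹

theorem Consts.minInd_eq {r : ℕ} (h : Consts G r) : minInd G = r := h.least.csInf_eq

theorem Consts.beta_eq {r : ℕ} (h : Consts G r) (K : Type) [Field K] : beta K G = 1 := by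
  have h1 := h.minInd_eq
  rw [beta, Nat.card_eq_one_iff_unique]
  constructor
  · constructor
    intro a b
    obtain ⟨a, rfl⟩ := Quot.exists_rep a
    obtain ⟨b, rfl⟩ := Quot.exists_rep b
    apply Quot.sound
    obtain ⟨x, hx, hx1⟩ := h.conj a.1.1 a.1.2 b.1.1 b.1.2 (a.2.trans h1) (b.2.trans h1)
    refine ⟨AlgEquiv.refl, 1, ⟨x, hx⟩, fun ζ _ => by simp, ?_⟩
    rw [pow_one]
    exact Subtype.ext hx1
  · obtain ⟨g, hg, -, hg1⟩ := h.least.1
    exact ⟨Quot.mk _ ⟨⟨g, hg⟩, hg1.symm.trans h1.symm⟩⟩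

theorem Consts.asymptotic_iff {r : ℕ} (h : Consts G r) (K : Type) [Field K] [NumberField K] :
    Asymptotic K G ↔ ∃ c : ℝ, 0 < c ∧
      Tendsto (fun X : ℝ => (count K G X : ℝ) / X ^ (1 / (r : ℝ))) atTop (nhds c) := by
  unfold Asymptotic
  rw [h.minInd_eq, h.beta_eq K]
  simp

theorem nonempty_of_pos (K : Type) [Field K] [NumberField K] {X : ℝ} (h : 0 < count K G X) :
    (Fields K G X).Nonempty := by
  have h3 : Nonempty (Quot fun L L' : Fields K G X => Nonempty (L.1 ≃ₐ[K] L'.1)) :=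
    (Nat.card_pos_iff.1 h).1
  obtain ⟨q⟩ := h3
  obtain ⟨⟨L, hL⟩, -⟩ := Quot.exists_rep q
  exact ⟨L, hL⟩

theorem nonempty_of_asymp (K : Type) [Field K] [NumberField K] (h : Asymptotic K G) :
    ∃ X : ℝ, (Fields K G X).Nonempty := by
  obtain ⟨c, hc, hlim⟩ := h
  obtain ⟨X, hX⟩ := (hlim.eventually (lt_mem_nhds hc)).exists
  refine ⟨X, nonempty_of_pos K (Nat.pos_of_ne_zero fun h0 => ?_)⟩
  rw [h0] at hX
  simp at hX

theorem real_gal (K : Type) [Field K] [NumberField K] (Γ : Type) [Group Γ] :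
    Realizable K Γ ↔ (Pool.Agent.TH444.ML.Gal K (AlgebraicClosure K) Γ).Nonempty :=
  Pool.Agent.Q24.ML.real_iff K (AlgebraicClosure K) Γ

theorem pretrans {m : ℕ} {H : Subgroup (Equiv.Perm (Fin m))} (hH : Transitive H) :
    MulAction.IsPretransitive H (Fin m) := ⟨fun x y => by
    obtain ⟨h, hh, h1⟩ := hH x y
    exact ⟨⟨h, hh⟩, h1⟩⟩

/-- a surjection from `Γ` to its permutation group -/
theorem hom_act' {Γ P : Type} [Group Γ] [MulAction Γ P] {d : ℕ} {G : Subgroup (Equiv.Perm (Fin d))}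
    (hG : IsAction (fun (γ : Γ) (x : P) => γ • x) G) : ∃ φ : Γ →* G, Function.Surjective φ := by
  obtain ⟨f, hf⟩ := hG
  have hmem : ∀ γ : Γ, f.symm.permCongrHom (MulAction.toPermHom Γ P γ) ∈ G := by
    intro γ
    rw [hf]
    refine ⟨γ, fun i => ?_⟩
    simp [Equiv.permCongrHom, Equiv.permCongr_apply]
  refine ⟨(f.symm.permCongrHom.toMonoidHom.comp (MulAction.toPermHom Γ P)).codRestrict G hmem, ?_⟩
  rintro ⟨π, hπ⟩
  obtain ⟨γ, hγ⟩ := (hf π).1 hπ
  refine ⟨γ, Subtype.ext (Equiv.ext fun i => ?_)⟩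
  apply f.injective
  rw [hγ i]
  simp [Equiv.permCongrHom, Equiv.permCongr_apply]

theorem real_of_pos (K : Type) [Field K] [NumberField K] {m : ℕ}
    (H : Subgroup (Equiv.Perm (Fin m))) (hm : 0 < m) (h : ∃ X : ℝ, 0 < count K H X) :
    Realizable K H := by
  obtain ⟨X, hX⟩ := h
  obtain ⟨L, hL⟩ := nonempty_of_pos K hX
  exact Pool.Agent.Q17.ML2.rg K m H L (Module.finite_of_finrank_pos (by rw [hL.1]; exact hm)) hL.2.1

theorem spw : Pool.Agent.H44.PT.S_SPW := Pool.Agent.H44.PT.SPW.main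

theorem blk : Pool.Agent.H44.PT.S_BLK := Pool.Agent.H44.PT.BLK.main

theorem exb : Pool.Agent.H44.PT.S_EXB := Pool.Agent.H44.PT.EXB.main

theorem r_pos {r m : ℕ} (hm : 0 < m) {H : Subgroup (Equiv.Perm (Fin m))} (h : IsBlockStep r H G) :
    0 < r := by
  obtain ⟨D, δ, -, h2, -⟩ := h
  rw [← h2 ⟨0, hm⟩, Set.ncard_pos (Set.toFinite _)]
  exact ⟨⟨0, hm⟩, rfl⟩

/-- the groups in a tower -/
theorem tower_data {Γ P : Type} [Group Γ] [MulAction Γ P] [FaithfulSMul Γ P]
    [MulAction.IsPretransitive Γ P] [Finite P] [Nonempty P] (r j : ℕ) :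
    ∀ {n : ℕ} (G : Subgroup (Equiv.Perm (Fin n))), IsTower (fun (γ : Γ) (x : P) => γ • x) r j G →
      n = 2 ^ j * Nat.card P ∧ Transitive G ∧ ∃ φ : G →* Γ, Function.Surjective φ := by
  induction j with
  | zero =>
    intro n G hG
    refine ⟨?_, trans_act hG, hom_act hG⟩
    obtain ⟨f, -⟩ := hG
    rw [pow_zero, one_mul, ← Nat.card_congr f, Nat.card_fin]
  | succ j ih =>
    rintro n G ⟨m, H, s, hH, -, hG⟩
    obtain ⟨h1, h2, φ, hφ⟩ := ih H hH
    have hP : 0 < Nat.card P := Nat.card_pos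
    have hm : 0 < m := by rw [h1]; positivity
    obtain ⟨ψ, hψ⟩ := Pool.Agent.H44.PT.hom_stepW spw blk hm (pretrans h2) hG
    obtain ⟨h3, h4⟩ := exb.2 s m n H G hG
    refine ⟨?_, h4 h2, φ.comp ψ, hφ.comp hψ⟩
    rw [h3, h1, pow_succ]
    ring

/-- realizability goes up the tower -/
theorem tower_real (K : Type) [Field K] [NumberField K] {Γ P : Type} [Group Γ]
    [MulAction Γ P] [FaithfulSMul Γ P] [MulAction.IsPretransitive Γ P] [Finite P] [Nonempty P]
    (hK : Realizable K Γ) (r j : ℕ) :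
    ∀ {n : ℕ} (G : Subgroup (Equiv.Perm (Fin n))), IsTower (fun (γ : Γ) (x : P) => γ • x) r j G →
      (Pool.Agent.TH444.ML.Gal K (AlgebraicClosure K) G).Nonempty := by
  induction j with
  | zero =>
    intro n G hG
    obtain ⟨φ, hφ⟩ := hom_act' hG
    exact (real_gal K G).1 (Pool.Agent.Q24.ML.Real.of_surj φ hφ hK)
  | succ j ih =>
    rintro n G ⟨m, H, s, hH, -, hG⟩
    obtain ⟨h1, h2, -⟩ := tower_data (P := P) r j H hH
    have hP : 0 < Nat.card P := Nat.card_pos
    have hm : 0 < m := by rw [h1]; positivity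
    exact Pool.Agent.H44.PT.real_stepW spw blk K hm (pretrans h2) hG (ih H hH)

/-- the upper bounds in a tower -/
theorem tower_good {e : ℕ → ℝ} (he : BoundE e) (K : Type) [Field K] [NumberField K] {Γ P : Type}
    [Group Γ] [MulAction Γ P] [FaithfulSMul Γ P] [MulAction.IsPretransitive Γ P] [Finite P]
    [Nonempty P] (hK : Realizable K Γ) {r : ℕ} (hr : 0 < r) {c : ℝ}
    (h : Good K (img Γ P) (1 / (2 * (r : ℝ)) + c)) (j : ℕ) :
    ∀ {n : ℕ} (G : Subgroup (Equiv.Perm (Fin n))), IsTower (fun (γ : Γ) (x : P) => γ • x) r j G →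
      ∀ ε : ℝ, 0 < ε → Good K G (max (1 / (r : ℝ)) (1 / (2 * (r : ℝ)) + c / 2 ^ j) + ε) := by
  induction j with
  | zero =>
    intro n G hG ε hε
    refine good_mono (good_act K hG h) ?_
    have := le_max_right (1 / (r : ℝ)) (1 / (2 * (r : ℝ)) + c / 2 ^ 0)
    rw [pow_zero, div_one] at this ⊢
    linarith
  | succ j ih =>
    rintro n G ⟨m, H, s, hH, hrs, hG⟩ ε hε
    obtain ⟨h1, h2, -⟩ := tower_data (P := P) r j H hH
    have hP : 0 < Nat.card P := Nat.card_pos
    have hm : 0 < m := by rw [h1]; positivity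
    refine good_mono (Pool.Agent.H44.PT.good_stepW spw blk exb K hm (pretrans h2) hG he
      (ih H hH ε hε).upper (tower_real K hK r j H hH) (ε / 2) (by linarith)) ?_
    exact Pool.Agent.H44.PT.exp_stepW hr hrs c j ε hε

/-- the formula for the top of a tower -/
theorem tower_asymp {e : ℕ → ℝ} (he : BoundE e) (K : Type) [Field K] [NumberField K] {Γ P : Type}
    [Group Γ] [MulAction Γ P] [FaithfulSMul Γ P] [MulAction.IsPretransitive Γ P] [Finite P]
    [Nonempty P] (hK : Realizable K Γ) {s : ℝ} (h : Good K (img Γ P) s) {r j : ℕ}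
    (hs : s < 1 / (2 * (r : ℝ)) + 2 ^ j / r)
    (hG : IsTopOfTower (fun (γ : Γ) (x : P) => γ • x) r j G) : Asymptotic K G := by
  obtain ⟨m, H, hH, hGH⟩ := hG
  obtain ⟨h1, h2, -⟩ := tower_data (P := P) r j H hH
  have hP : 0 < Nat.card P := Nat.card_pos
  have hm : 0 < m := by rw [h1]; positivity
  have hr : 0 < r := r_pos hm hGH
  have hr' : (0 : ℝ) < r := by exact_mod_cast hr
  obtain ⟨c, hc⟩ : ∃ c : ℝ, c = s - 1 / (2 * (r : ℝ)) := ⟨_, rfl⟩
  have h' : Good K (img Γ P) (1 / (2 * (r : ℝ)) + c) := by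
    rw [hc, add_sub_cancel]
    exact h
  have h3 : c / 2 ^ j < 1 / r := by
    rw [div_lt_iff₀ (by positivity)]
    have e1 : 1 / (r : ℝ) * 2 ^ j = 2 ^ j / r := by ring
    rw [e1, hc]
    linarith
  have e3 : 3 / (2 * (r : ℝ)) = 1 / (2 * r) + 1 / r := by
    field_simp
    norm_num
  have h4 : max (1 / (r : ℝ)) (1 / (2 * (r : ℝ)) + c / 2 ^ j) < 3 / (2 * (r : ℝ)) := by
    have h5 : 0 < 1 / (2 * (r : ℝ)) := by positivity
    rw [e3]
    refine max_lt ?_ ?_ <;> linarith
  obtain ⟨ε, hε, hε1⟩ : ∃ ε : ℝ, 0 < ε ∧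
      max (1 / (r : ℝ)) (1 / (2 * (r : ℝ)) + c / 2 ^ j) + ε < 3 / (2 * (r : ℝ)) :=
    ⟨(3 / (2 * (r : ℝ)) - max (1 / (r : ℝ)) (1 / (2 * (r : ℝ)) + c / 2 ^ j)) / 2,
      by linarith, by linarith⟩
  have hc1 : Consts G r := by
    obtain ⟨h5, h6⟩ := Pool.Agent.H44.PT.consts_stepW blk hm (pretrans h2) hGH
    exact ⟨h5, h6⟩
  exact (hc1.asymptotic_iff K).2 (Pool.Agent.H44.PT.asymp_stepW blk K hm (pretrans h2) hGH he
    (tower_good he K hK hr h' j H hH ε hε).upper hε1 (tower_real K hK r j H hH))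

/-- the criterion -/
theorem tower_main0 {e : ℕ → ℝ} (he : BoundE e) {Γ P : Type} [Group Γ] [MulAction Γ P]
    [FaithfulSMul Γ P] [MulAction.IsPretransitive Γ P] [Finite P] [Nonempty P] {r j : ℕ}
    (hF : ∀ (K : Type) [Field K] [NumberField K], 0 < r → Realizable K Γ →
      ∃ s : ℝ, s < 1 / (2 * (r : ℝ)) + 2 ^ j / r ∧ Good K (img Γ P) s)
    (hG : IsTopOfTower (fun (γ : Γ) (x : P) => γ • x) r j G) : SolvedBy G r Γ := by
  have hfinΓ : Finite Γ := Finite.of_injective _
    (MulAction.toPerm_injective : Function.Injective (MulAction.toPerm (α := Γ) (β := P)))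
  have hG' := hG
  obtain ⟨m, H, hH, hGH⟩ := hG'
  obtain ⟨h1, h2, φ, hφ⟩ := tower_data (P := P) r j H hH
  have hP : 0 < Nat.card P := Nat.card_pos
  have hm : 0 < m := by rw [h1]; positivity
  have hr : 0 < r := r_pos hm hGH
  have hasy : ∀ (K : Type) [Field K] [NumberField K], Realizable K Γ → Asymptotic K G := by
    intro K _ _ hK
    obtain ⟨s, hs, hgood⟩ := hF K hr hK
    exact tower_asymp he K hK hgood hs hG
  have hc : Consts G r := by
    obtain ⟨h5, h6⟩ := Pool.Agent.H44.PT.consts_stepW blk hm (pretrans h2) hGH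
    exact ⟨h5, h6⟩
  obtain ⟨ψ, hψ⟩ := Pool.Agent.H44.PT.hom_stepW spw blk hm (pretrans h2) hGH
  refine ⟨?_, fun K _ _ => ⟨hc.minInd_eq, hc.beta_eq K, ⟨fun h => ?_, hasy K⟩, fun h => ?_,
    fun h => ?_⟩⟩
  · obtain ⟨K₀, i1, i2, hK₀⟩ := Pool.Agent.Q248.ML.exists_base Γ
    exact ⟨K₀, i1, i2, fun K _ _ _ => hasy K (hK₀ K)⟩
  · obtain ⟨B, hB⟩ := nonempty_of_asymp K h
    exact Pool.Agent.Q24.ML.Real.of_surj φ hφ ((real_gal K H).2
      (Pool.Agent.H44.PT.down_stepW blk K hm (pretrans h2) hGH hB))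
  · exact Pool.Agent.Q24.ML.Real.of_surj (φ.comp ψ) (hφ.comp hψ) h
  · exact (real_gal K G).2 (Pool.Agent.H44.PT.real_stepW spw blk K hm (pretrans h2) hGH
      (tower_real K h r j H hH))

theorem gchain_of {Γ : Type} [Group Γ] (ts : List ℕ) :
    ∀ V : Subgroup Γ, Chain ts V → GChain ts V := by
  induction ts with
  | nil => exact fun V hV => hV
  | cons t ts ih =>
    rintro V ⟨V', h1, h2, h3⟩
    exact ⟨V', h1, h2, ih V' h3⟩

theorem tower_chain {Γ P : Type} [Group Γ] [MulAction Γ P] [FaithfulSMul Γ P]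
    [MulAction.IsPretransitive Γ P] [Finite P] {e : ℕ → ℝ} (he : BoundU e) (x₀ : P) (ts : List ℕ)
    (hc : Chain ts (MulAction.stabilizer Γ x₀)) {r j : ℕ}
    (hE : 0 < r → (∀ s ∈ ts, 1 ≤ s) → Ex e ts < 1 / (2 * (r : ℝ)) + 2 ^ j / r)
    (hG : IsTopOfTower (fun (γ : Γ) (x : P) => γ • x) r j G) : SolvedBy G r Γ := by
  have hne : Nonempty P := ⟨x₀⟩
  have hfinΓ : Finite Γ := Finite.of_injective _
    (MulAction.toPerm_injective : Function.Injective (MulAction.toPerm (α := Γ) (β := P)))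
  have hc' := gchain_of ts _ hc
  refine tower_main0 he.bound
    (fun K _ _ hr hK => ⟨Ex e ts, hE hr (gchain_pos ts _ hc'), ?_⟩) hG
  exact good_chain he K x₀ ts hc' ((Pool.Agent.Q24.ML.real_iff K (AlgebraicClosure K) Γ).1 hK)

/-- existence of a group on `{1, ..., d}` with its block system -/
theorem exists_top {r m : ℕ} (hm : 0 < m) (H : Subgroup (Equiv.Perm (Fin m)))
    (hH : ∃ (D : Type) (δ : Fin m → D),
      (∀ h ∈ H, ∀ x y : Fin m, δ x = δ y → δ (h x) = δ (h y)) ∧
      (∀ x : Fin m, {y : Fin m | δ y = δ x}.ncard = r) ∧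
      (∀ h ∈ H, h ≠ 1 → r < {x : Fin m | h x ≠ x}.ncard)) :
    ∃ (n : ℕ) (G : Subgroup (Equiv.Perm (Fin n))), 0 < n ∧ IsBlockStep r H G ∧
      ∃ (D : Type) (δ : Fin n → D),
      (∀ h ∈ G, ∀ x y : Fin n, δ x = δ y → δ (h x) = δ (h y)) ∧
      (∀ x : Fin n, {y : Fin n | δ y = δ x}.ncard = r) ∧
      (∀ h ∈ G, h ≠ 1 → r < {x : Fin n | h x ≠ x}.ncard) := by
  obtain ⟨D, δ, h1, h2, h3⟩ := hH
  obtain ⟨n, G, hG⟩ := exb.1 m r H D δ h1 h2 h3
  refine ⟨n, G, ?_, hG, Pool.Agent.H44.PT.NXT.main r m n H G hm hG⟩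
  have := (exb.2 r m n H G hG).1
  omega

theorem tower_exists {Γ P : Type} [Group Γ] [MulAction Γ P] [Finite P] [Nonempty P] {D : Type}
    (δ : P → D) {r : ℕ} (h1 : ∀ (γ : Γ) (x y : P), δ x = δ y → δ (γ • x) = δ (γ • y))
    (h2 : ∀ x : P, {y : P | δ y = δ x}.ncard = r)
    (h3 : ∀ γ : Γ, γ ≠ 1 → r < {x : P | γ • x ≠ x}.ncard) (j : ℕ) :
    ∃ (n : ℕ) (G : Subgroup (Equiv.Perm (Fin n))), 0 < n ∧
      IsTower (fun (γ : Γ) (x : P) => γ • x) r j G ∧
      ∃ (D : Type) (δ : Fin n → D),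
      (∀ h ∈ G, ∀ x y : Fin n, δ x = δ y → δ (h x) = δ (h y)) ∧
      (∀ x : Fin n, {y : Fin n | δ y = δ x}.ncard = r) ∧
      (∀ h ∈ G, h ≠ 1 → r < {x : Fin n | h x ≠ x}.ncard) := by
  induction j with
  | zero =>
    obtain ⟨m, H, f, hf⟩ := exists_act' Γ P
    have hm : 0 < m := by
      have h4 := Nat.card_congr f
      rw [Nat.card_fin] at h4
      rw [h4]
      exact Nat.card_pos
    refine ⟨m, H, hm, ⟨f, hf⟩, D, fun i => δ (f i), ?_, ?_, ?_⟩
    · intro h hh x y hxy
      obtain ⟨γ, hγ⟩ := (hf h).1 hh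
      change δ (f (h x)) = δ (f (h y))
      rw [hγ, hγ]
      exact h1 γ _ _ hxy
    · intro x
      rw [← h2 (f x), ← Set.ncard_image_of_injective _ f.injective]
      congr 1
      ext q
      constructor
      · rintro ⟨y, hy, rfl⟩
        exact hy
      · intro hq
        refine ⟨f.symm q, ?_, f.apply_symm_apply q⟩
        change δ (f (f.symm q)) = δ (f x)
        rw [Equiv.apply_symm_apply]
        exact hq
    · intro h hh hne
      obtain ⟨γ, hγ⟩ := (hf h).1 hh
      have hγ1 : γ ≠ 1 := by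
        rintro rfl
        apply hne
        ext1 i
        apply f.injective
        rw [hγ, one_smul]
        rfl
      refine (h3 γ hγ1).trans_le (le_of_eq ?_)
      rw [← Set.ncard_image_of_injective {x : Fin m | h x ≠ x} f.injective]
      congr 1
      ext q
      constructor
      · intro hq
        refine ⟨f.symm q, ?_, f.apply_symm_apply q⟩
        intro h5
        apply hq
        have h6 := hγ (f.symm q)
        rw [h5, Equiv.apply_symm_apply] at h6
        exact h6.symm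
      · rintro ⟨y, hy, rfl⟩ h5
        apply hy
        apply f.injective
        rw [hγ]
        exact h5
  | succ j ih =>
    obtain ⟨m, H, hm, hT, hD⟩ := ih
    obtain ⟨n, G, hn, hG, hD'⟩ := exists_top hm H hD
    exact ⟨n, G, hn, ⟨m, H, r, hT, le_rfl, hG⟩, hD'⟩

theorem img_sub {m : ℕ} (H : Subgroup (Equiv.Perm (Fin m))) : img H (Fin m) = H := by
  ext π
  constructor
  · rintro ⟨γ, rfl⟩
    exact γ.2
  · intro hπ
    exact ⟨⟨π, hπ⟩, rfl⟩

theorem from_growth {e : ℕ → ℝ} (he : BoundE e) (K : Type) [Field K] [NumberField K] {m : ℕ}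
    (H : Subgroup (Equiv.Perm (Fin m))) (A C X₀ : ℝ) (r j : ℕ) (hne : ∃ X : ℝ, 0 < count K H X)
    (hC : ∀ X : ℝ, X₀ ≤ X → (count K H X : ℝ) ≤ C * X ^ A)
    (hA : A < 1 / (2 * (r : ℝ)) + 2 ^ j / r)
    (hG : IsTopOfTower (fun (h : H) (x : Fin m) => h.1 x) r j G) : Asymptotic K G := by
  obtain ⟨hm, hgood⟩ := good_of_count K H C X₀ hC hne
  have htr := trans_of_galX K H hgood.ne
  have hnz : NeZero m := ⟨by omega⟩
  exact tower_asymp (Γ := H) (P := Fin m) he K (real_of_pos K H hm hne)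
    (by rw [img_sub]; exact hgood) hA hG

/-- a function with the growth of Malle's conjecture -/
theorem growthE (f : ℝ → ℝ) (hf : ∀ X, 0 ≤ f X) (i b : ℕ) (c : ℝ) (hc : 0 < c) (ε : ℝ) (hε : 0 < ε)
    (h : Tendsto (fun X : ℝ => f X / (X ^ (1 / (i : ℝ)) * Real.log X ^ b)) atTop (nhds c)) :
    (∃ X, 0 < f X) ∧ ∃ X₀, ∀ X, X₀ ≤ X → f X ≤ (c + 1) * X ^ (1 / (i : ℝ) + ε) := by
  refine ⟨(growth f hf i b c hc h).1, ?_⟩
  have h1 : ∀ᶠ X : ℝ in atTop, f X / (X ^ (1 / (i : ℝ)) * Real.log X ^ b) < c + 1 :=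
    h.eventually (gt_mem_nhds (by linarith))
  have h2 : ∀ᶠ X : ℝ in atTop, ‖Real.log X ^ (b : ℝ)‖ ≤ 1 * ‖X ^ ε‖ :=
    (isLittleO_log_rpow_rpow_atTop (b : ℝ) hε).def one_pos
  have h3 := (h1.and h2).and (eventually_gt_atTop (3 : ℝ))
  obtain ⟨X₀, hX₀⟩ := eventually_atTop.1 h3
  refine ⟨X₀, fun X hX => ?_⟩
  obtain ⟨⟨h4, h5⟩, h6⟩ := hX₀ X hX
  have hX0 : 0 < X := by linarith
  have hlog : 0 < Real.log X := Real.log_pos (by linarith)
  have hpos : 0 < X ^ (1 / (i : ℝ)) * Real.log X ^ b := by positivity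
  rw [div_lt_iff₀ hpos] at h4
  rw [Real.rpow_natCast, one_mul, Real.norm_of_nonneg (by positivity),
    Real.norm_of_nonneg (by positivity)] at h5
  refine h4.le.trans ?_
  refine mul_le_mul_of_nonneg_left ?_ (by linarith)
  rw [Real.rpow_add hX0]
  exact mul_le_mul_of_nonneg_left h5 (by positivity)

/-- the bounds which follow from the asymptotic formula -/
theorem good_of_asymp (K : Type) [Field K] [NumberField K] {m : ℕ}
    {H : Subgroup (Equiv.Perm (Fin m))} (hH : Asymptotic K H) :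
    0 < m ∧ (∃ X : ℝ, 0 < count K H X) ∧ ∀ ε : ℝ, 0 < ε → (Good K H (1 / (minInd H : ℝ) + ε) ∧
      ∃ C X₀ : ℝ, ∀ X : ℝ, X₀ ≤ X → (count K H X : ℝ) ≤ C * X ^ (1 / (minInd H : ℝ) + ε)) := by
  obtain ⟨c, hc, hlim⟩ := hH
  have h0 : ∀ ε : ℝ, 0 < ε → (0 < m ∧ (∃ X : ℝ, 0 < count K H X)) ∧
      (Good K H (1 / (minInd H : ℝ) + ε) ∧
      ∃ C X₀ : ℝ, ∀ X : ℝ, X₀ ≤ X → (count K H X : ℝ) ≤ C * X ^ (1 / (minInd H : ℝ) + ε)) := by
    intro ε hε
    obtain ⟨⟨X₁, h1⟩, X₀, h2⟩ := growthE (fun X => (count K H X : ℝ)) (fun X => Nat.cast_nonneg _)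
      (minInd H) (beta K H - 1) c hc ε hε hlim
    have h3 : 0 < count K H X₁ := by exact_mod_cast h1
    obtain ⟨h4, h5⟩ := good_of_count K H (c + 1) X₀ h2 ⟨X₁, h3⟩
    exact ⟨⟨h4, X₁, h3⟩, h5, c + 1, X₀, h2⟩
  exact ⟨(h0 1 one_pos).1.1, (h0 1 one_pos).1.2, fun ε hε => (h0 ε hε).2⟩

theorem first_step {m₀ : ℕ} (H : Subgroup (Equiv.Perm (Fin m₀))) (r j : ℕ) :
    ∀ {n : ℕ} (G : Subgroup (Equiv.Perm (Fin n))),
      IsTower (fun (h : H) (x : Fin m₀) => h.1 x) r (j + 1) G →
      ∀ h ∈ H, h ≠ 1 → r < {x : Fin m₀ | h x ≠ x}.ncard := by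
  induction j with
  | zero =>
    rintro n G ⟨m, H', s, ⟨f, hf⟩, hrs, D, δ, -, -, h3, -⟩ h hh hne
    have hπ : f.symm.permCongr h ∈ H' := (hf _).2 ⟨⟨h, hh⟩, fun i => by
      simp [Equiv.permCongr_apply]⟩
    have hπ1 : f.symm.permCongr h ≠ 1 := by
      intro h4
      apply hne
      ext1 x
      have h5 := congrArg (fun π : Equiv.Perm (Fin m) => f (π (f.symm x))) h4
      simpa [Equiv.permCongr_apply] using h5
    refine hrs.trans_lt ((h3 _ hπ hπ1).trans_le (le_of_eq ?_))
    rw [← Set.ncard_image_of_injective {x : Fin m | (f.symm.permCongr h) x ≠ x} f.injective]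
    congr 1
    ext q
    constructor
    · rintro ⟨x, hx, rfl⟩ h6
      apply hx
      rw [Equiv.permCongr_apply]
      simp only [Equiv.symm_symm]
      rw [h6]
      exact f.symm_apply_apply x
    · intro hq
      refine ⟨f.symm q, fun h6 => hq ?_, f.apply_symm_apply q⟩
      rw [Equiv.permCongr_apply] at h6
      simp only [Equiv.symm_symm, Equiv.apply_symm_apply] at h6
      exact f.symm.injective h6
  | succ j ih =>
    rintro n G ⟨m, H', s, hT, -, -⟩ h hh hne
    exact ih H' hT h hh hne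

/-- an element of index `i` moves at most `2 i` points -/
theorem moved_le {m : ℕ} (h : Equiv.Perm (Fin m)) : {x : Fin m | h x ≠ x}.ncard ≤ 2 * ind h := by
  have h1 : {x : Fin m | h x ≠ x}.ncard = h.cycleType.sum := by
    rw [Equiv.Perm.sum_cycleType, Set.ncard_eq_toFinset_card']
    congr 1
    ext x
    simp
  have h2 : Multiset.card h.cycleType * 2 ≤ h.cycleType.sum := by
    have := Multiset.card_nsmul_le_sum (s := h.cycleType) (a := 2)
      fun x hx => Equiv.Perm.two_le_of_mem_cycleType hx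
    simpa using this
  rw [h1, ind]
  omega

/-- the condition on the growth holds if the formula holds for `H` -/
theorem exponent_lt {m n r j : ℕ} {H : Subgroup (Equiv.Perm (Fin m))} (hr : 0 < r)
    {G : Subgroup (Equiv.Perm (Fin n))} (hG : IsTopOfTower (fun (h : H) (x : Fin m) => h.1 x) r j G)
    (hj : 1 ≤ j ∨ 2 * r < 3 * minInd H) :
    1 / (minInd H : ℝ) < 1 / (2 * (r : ℝ)) + 2 ^ j / r := by
  have hr' : (0 : ℝ) < r := by exact_mod_cast hr
  rcases Nat.eq_zero_or_pos (minInd H) with h0 | h0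
  · rw [h0]
    have : (0 : ℝ) < 1 / (2 * (r : ℝ)) + 2 ^ j / r := by positivity
    simpa using this
  · have hi : (0 : ℝ) < minInd H := by exact_mod_cast h0
    rcases hj with hj | hj
    · obtain ⟨j, rfl⟩ := Nat.exists_eq_add_of_le' hj
      obtain ⟨m', H', hT, -⟩ := hG
      obtain ⟨g, hg, hg1, hg2⟩ : minInd H ∈ {j : ℕ | ∃ g ∈ H, g ≠ 1 ∧ j = ind g} := by
        apply Nat.sInf_mem
        by_contra hcon
        rw [Set.not_nonempty_iff_eq_empty] at hcon
        have : minInd H = 0 := by rw [minInd, hcon, Nat.sInf_empty]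
        omega
      have h1 : r < 2 * minInd H := by
        rw [hg2]
        exact (first_step H r j H' hT g hg hg1).trans_le (moved_le g)
      have h2 : (r : ℝ) < 2 * minInd H := by exact_mod_cast h1
      have h3 : 1 / (minInd H : ℝ) < 2 / r := by
        rw [div_lt_div_iff₀ hi hr']
        linarith
      have h4 : (2 : ℝ) / r ≤ 2 ^ (j + 1) / r := by
        apply div_le_div_of_nonneg_right _ hr'.le
        calc (2 : ℝ) = 2 ^ 1 := by norm_num
          _ ≤ 2 ^ (j + 1) := pow_le_pow_right₀ (by norm_num) (by omega)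
      have h5 : 0 < 1 / (2 * (r : ℝ)) := by positivity
      linarith
    · have h2 : 2 * (r : ℝ) < 3 * minInd H := by exact_mod_cast hj
      have h3 : 1 / (minInd H : ℝ) < 3 / (2 * r) := by
        rw [div_lt_div_iff₀ hi (by positivity)]
        linarith
      have h4 : 3 / (2 * (r : ℝ)) = 1 / (2 * r) + 1 / r := by
        field_simp
        norm_num
      have h5 : 1 / (r : ℝ) ≤ 2 ^ j / r :=
        div_le_div_of_nonneg_right (one_le_pow₀ (by norm_num)) hr'.le
      linarith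

/-- from the formula for `H` to the formula for the towers over `H` -/
theorem from_asymp {e : ℕ → ℝ} (he : BoundE e) (K : Type) [Field K] [NumberField K] {m n r j : ℕ}
    {H : Subgroup (Equiv.Perm (Fin m))} {G : Subgroup (Equiv.Perm (Fin n))}
    (hG : IsTopOfTower (fun (h : H) (x : Fin m) => h.1 x) r j G)
    (hj : 1 ≤ j ∨ 2 * r < 3 * minInd H) (hH : Asymptotic K H) : Asymptotic K G := by
  obtain ⟨hm, hne, hgrowth⟩ := good_of_asymp K hH
  have htr := trans_of_galX K H (good_of_asymp K hH |>.2.2 1 one_pos).1.ne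
  have hnz : NeZero m := ⟨by omega⟩
  have hr : 0 < r := by
    obtain ⟨m', H', hT, hGH⟩ := hG
    have h1 := (tower_data (Γ := H) (P := Fin m) r j H' hT).1
    refine r_pos (m := m') ?_ hGH
    rw [h1, Nat.card_fin]
    positivity
  have h1 := exponent_lt hr hG hj
  obtain ⟨ε, hε, hε1⟩ : ∃ ε : ℝ, 0 < ε ∧
      1 / (minInd H : ℝ) + ε < 1 / (2 * (r : ℝ)) + 2 ^ j / r :=
    ⟨(1 / (2 * (r : ℝ)) + 2 ^ j / r - 1 / (minInd H : ℝ)) / 2, by linarith, by linarith⟩
  obtain ⟨-, C, X₀, hC⟩ := hgrowth ε hε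
  exact from_growth he K H _ C X₀ r j hne hC hε1 hG

end proof

end Pool.Agent.Results.MP_b39724_nt.TowersOverAnyGroup

open Pool.Agent.Results.MP_b39724_nt.TowersOverAnyGroup in
/-- (1) Towers of `j + 1` steps over any transitive group of degree `m`, with blocks of size `r` in the
last step and at least `r` in the others, `r (m + 1) ≤ 2 ^ (j + 1) + 1`; (2) over `S_m` the formula holds
over all number fields; (3) towers over any transitive group for which the point stabilizer is the bottom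
of a chain of subgroups with small indices; (4) if the indices are at most `t`, `t` large,
`c r (log t) ^ 2 ≤ 2 ^ (j + 1)` is enough; (5) the towers exist, are transitive, of degree
`2 ^ (j + 1) m`, and map onto the given group; (6) towers over groups with bounded growth; (7) Q1, and the
formula over `K`, pass from `H` to all towers of at least two steps over `H`, and to one step with blocks
of size `r < (3 / 2) ind(H)`. -/
theorem Pool.Agent.Results.MP_b39724_nt.TowersOverAnyGroup.result :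
    -- (1) towers over any group
    (∀ (Γ P : Type) [Group Γ] [MulAction Γ P] [FaithfulSMul Γ P] [MulAction.IsPretransitive Γ P]
      [Finite P] [Nonempty P] (r j : ℕ), r * (Nat.card P + 1) ≤ 2 ^ (j + 1) + 1 →
      ∀ (n : ℕ) (G : Subgroup (Equiv.Perm (Fin n))),
        IsTopOfTower (fun (γ : Γ) (x : P) => γ • x) r j G → SolvedBy G r Γ) ∧
    -- (2) over all number fields
    (∀ m r j : ℕ, 3 ≤ m → r * (m + 1) ≤ 2 ^ (j + 1) + 1 →
      ∀ (n : ℕ) (G : Subgroup (Equiv.Perm (Fin n))),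
        IsTopOfTower (fun (g : Equiv.Perm (Fin m)) (x : Fin m) => g x) r j G →
          ∀ (K : Type) [Field K] [NumberField K], Asymptotic K G) ∧
    -- (3) the number of steps depends only on the indices in a chain
    (∀ (Γ P : Type) [Group Γ] [MulAction Γ P] [FaithfulSMul Γ P] [MulAction.IsPretransitive Γ P]
      [Finite P] (x₀ : P) (ts : List ℕ) (r i j : ℕ), Chain ts (MulAction.stabilizer Γ x₀) →
      1 ≤ i → r * (2 ^ (i + 1) + 1) ≤ 2 ^ (j + 1) + 1 →
      (∀ s ∈ ts, s + 2 ≤ 2 ^ (i + 1) ∨ (s.Prime ∧ s + 2 ≤ 2 ^ (i + 2))) →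
      ∀ (n : ℕ) (G : Subgroup (Equiv.Perm (Fin n))),
        IsTopOfTower (fun (γ : Γ) (x : P) => γ • x) r j G → SolvedBy G r Γ) ∧
    -- (4) short towers
    (∀ c : ℝ, 1 / (4 * (Real.log 2) ^ 2) < c → ∃ t₀ : ℕ, ∀ (Γ P : Type) [Group Γ] [MulAction Γ P]
      [FaithfulSMul Γ P] [MulAction.IsPretransitive Γ P] [Finite P] (x₀ : P) (ts : List ℕ)
      (r j t : ℕ), Chain ts (MulAction.stabilizer Γ x₀) → (∀ s ∈ ts, s ≤ t) → t₀ ≤ t →
      c * r * (Real.log t) ^ 2 ≤ 2 ^ (j + 1) →
      ∀ (n : ℕ) (G : Subgroup (Equiv.Perm (Fin n))),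
        IsTopOfTower (fun (γ : Γ) (x : P) => γ • x) r j G → SolvedBy G r Γ) ∧
    -- (5) existence
    (∀ (Γ P : Type) [Group Γ] [MulAction Γ P] [FaithfulSMul Γ P] [MulAction.IsPretransitive Γ P]
      [Finite P] [Nonempty P] (r j : ℕ),
      (∀ (D : Type) (δ : P → D), (∀ (γ : Γ) (x y : P), δ x = δ y → δ (γ • x) = δ (γ • y)) →
        (∀ x : P, {y : P | δ y = δ x}.ncard = r) →
        (∀ γ : Γ, γ ≠ 1 → r < {x : P | γ • x ≠ x}.ncard) →
        ∃ (n : ℕ) (G : Subgroup (Equiv.Perm (Fin n))),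
          IsTopOfTower (fun (γ : Γ) (x : P) => γ • x) r j G) ∧
      (∃ (n : ℕ) (G : Subgroup (Equiv.Perm (Fin n))),
        IsTopOfTower (fun (γ : Γ) (x : P) => γ • x) 1 j G) ∧
      ∀ (n : ℕ) (G : Subgroup (Equiv.Perm (Fin n))),
        IsTopOfTower (fun (γ : Γ) (x : P) => γ • x) r j G →
          n = 2 ^ (j + 1) * Nat.card P ∧ Transitive G ∧ ∃ φ : G →* Γ, Function.Surjective φ) ∧
    -- (6) bounded growth
    (∀ (K : Type) [Field K] [NumberField K] (m : ℕ) (H : Subgroup (Equiv.Perm (Fin m)))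
      (A C X₀ : ℝ) (r j : ℕ), (∃ X : ℝ, 0 < count K H X) →
      (∀ X : ℝ, X₀ ≤ X → (count K H X : ℝ) ≤ C * X ^ A) → A < 1 / (2 * (r : ℝ)) + 2 ^ j / r →
      ∀ (n : ℕ) (G : Subgroup (Equiv.Perm (Fin n))),
        IsTopOfTower (fun (h : H) (x : Fin m) => h.1 x) r j G → Asymptotic K G) ∧
    -- (7) from `H` to the towers over `H`
    (∀ (m r j n : ℕ) (H : Subgroup (Equiv.Perm (Fin m))) (G : Subgroup (Equiv.Perm (Fin n))),
      IsTopOfTower (fun (h : H) (x : Fin m) => h.1 x) r j G → (1 ≤ j ∨ 2 * r < 3 * minInd H) →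
      (∀ (K : Type) [Field K] [NumberField K], Asymptotic K H → Asymptotic K G) ∧
        (LargeBase H → LargeBase G)) := by
  obtain ⟨e, he, he1, heS, helog⟩ := Pool.Agent.H44.MB.exists_eU
  have h1 : ∀ (Γ P : Type) [Group Γ] [MulAction Γ P] [FaithfulSMul Γ P]
      [MulAction.IsPretransitive Γ P] [Finite P] [Nonempty P] (r j : ℕ),
      r * (Nat.card P + 1) ≤ 2 ^ (j + 1) + 1 →
      ∀ (n : ℕ) (G : Subgroup (Equiv.Perm (Fin n))),
        IsTopOfTower (fun (γ : Γ) (x : P) => γ • x) r j G → SolvedBy G r Γ := by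
    intro Γ P _ _ _ _ _ _ r j hP n G hG
    have hfinΓ : Finite Γ := Finite.of_injective _
      (MulAction.toPerm_injective : Function.Injective (MulAction.toPerm (α := Γ) (β := P)))
    have hPpos : 0 < Nat.card P := Nat.card_pos
    refine tower_main0 he.bound (fun K _ _ hr hK => ?_) hG
    obtain ⟨s, -, hs, hgood⟩ := Pool.Agent.H44.MB.good_few3 he.bound K Γ P
      (Pool.Agent.H44.MB.few_point3 he.1 (((Nat.card P : ℕ) + 1 : ℝ) / 2)
        (Pool.Agent.H44.MB.e_lt he1 heS hPpos))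
      ((Pool.Agent.Q24.ML.real_iff K (AlgebraicClosure K) Γ).1 hK)
    refine ⟨s, hs.trans_le ?_, hgood⟩
    have hr' : (0 : ℝ) < r := by exact_mod_cast hr
    have h2 : ((r * (Nat.card P + 1) : ℕ) : ℝ) ≤ ((2 ^ (j + 1) + 1 : ℕ) : ℝ) := by exact_mod_cast hP
    push_cast at h2
    have e1 : 1 / (2 * (r : ℝ)) + 2 ^ j / r = (2 ^ (j + 1) + 1) / (2 * r) := by
      field_simp
      ring
    rw [e1, div_le_div_iff₀ (by norm_num) (by positivity)]
    linarith
  refine ⟨h1, ?_, ?_, ?_, ?_, ?_, ?_⟩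
  · intro m r j hm hj n G hG K _ _
    have hnz : NeZero m := ⟨by omega⟩
    have hG' : IsTopOfTower (fun (γ : Equiv.Perm (Fin m)) (x : Fin m) => γ • x) r j G := hG
    have h3 := h1 (Equiv.Perm (Fin m)) (Fin m) r j (by rw [Nat.card_fin]; exact hj) n G hG'
    exact (h3.2 K).2.2.1.2 (Pool.Agent.H44.MB.real_sym K m hm)
  · intro Γ P _ _ _ _ _ x₀ ts r i j hc hi hij hts n G hG
    refine tower_chain he x₀ ts hc (fun hr hpos => ?_) hG
    have hr' : (0 : ℝ) < r := by exact_mod_cast hr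
    have h2 := Pool.Agent.H44.MB.Ex_mixed he1 heS ts i hi fun s hs => by
      refine ⟨hpos s hs, ?_⟩
      have h2 : 2 ^ (i + 1) = 2 * 2 ^ i := by ring
      have h3 : 2 ^ (i + 2) = 4 * 2 ^ i := by ring
      rw [← h2, ← h3]
      exact hts s hs
    refine h2.trans_lt ?_
    have h3 : ((r * (2 ^ (i + 1) + 1) : ℕ) : ℝ) ≤ ((2 ^ (j + 1) + 1 : ℕ) : ℝ) := by
      exact_mod_cast hij
    push_cast at h3
    have e1 : 1 / (2 * (r : ℝ)) + 2 ^ j / r = (2 ^ (j + 1) + 1) / (2 * r) := by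
      field_simp
      ring
    rw [e1, lt_div_iff₀ (by positivity)]
    rw [pow_succ (2 : ℝ) i] at h3
    nlinarith
  · intro c hc
    have hl : 0 < Real.log 2 := Real.log_pos (by norm_num)
    have h2 : 1 / (8 * (Real.log 2) ^ 2) < c / 2 := by
      have : 1 / (8 * (Real.log 2) ^ 2) = 1 / (4 * (Real.log 2) ^ 2) / 2 := by
        field_simp
        norm_num
      rw [this]
      linarith
    obtain ⟨t₀, ht₀⟩ := Pool.Agent.H44.MB.Ex_log he1 heS helog (c / 2) h2
    refine ⟨t₀, ?_⟩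
    intro Γ P _ _ _ _ _ x₀ ts r j t hc hts ht hcj n G hG
    refine tower_chain he x₀ ts hc (fun hr hpos => ?_) hG
    have hr' : (0 : ℝ) < r := by exact_mod_cast hr
    refine (ht₀ t ht ts fun s hs => ⟨hpos s hs, hts s hs⟩).trans_lt ?_
    rw [pow_succ (2 : ℝ) j] at hcj
    have h4 : c / 2 * (Real.log t) ^ 2 ≤ 2 ^ j / r := by
      rw [le_div_iff₀ hr']
      linarith
    have h5 : 0 < 1 / (2 * (r : ℝ)) := by positivity
    linarith
  · intro Γ P _ _ _ _ _ _ r j
    have hP : 0 < Nat.card P := Nat.card_pos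
    have hex : ∀ (r : ℕ) (D : Type) (δ : P → D),
        (∀ (γ : Γ) (x y : P), δ x = δ y → δ (γ • x) = δ (γ • y)) →
        (∀ x : P, {y : P | δ y = δ x}.ncard = r) →
        (∀ γ : Γ, γ ≠ 1 → r < {x : P | γ • x ≠ x}.ncard) →
        ∃ (n : ℕ) (G : Subgroup (Equiv.Perm (Fin n))),
          IsTopOfTower (fun (γ : Γ) (x : P) => γ • x) r j G := by
      intro r D δ h2 h3 h4
      obtain ⟨m, H, hm, hT, hD⟩ := tower_exists δ h2 h3 h4 j
      obtain ⟨n, G, -, hG, -⟩ := exists_top hm H hD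
      exact ⟨n, G, m, H, hT, hG⟩
    refine ⟨hex r, ?_, ?_⟩
    · refine hex 1 P id (fun γ x y h => by rw [show x = y from h]) (fun x => ?_) (fun γ hγ => ?_)
      · exact Set.ncard_singleton x
      · rw [Set.one_lt_ncard (Set.toFinite _)]
        obtain ⟨x, hx⟩ : ∃ x : P, γ • x ≠ x := by
          by_contra hcon
          push Not at hcon
          exact hγ (eq_of_smul_eq_smul (α := P) fun x => by rw [hcon x, one_smul])
        exact ⟨x, hx, γ • x, fun h => hx (smul_left_cancel γ h), fun h => hx h.symm⟩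
    · rintro n G ⟨m, H, hH, hGH⟩
      exact tower_data r (j + 1) G ⟨m, H, r, hH, le_rfl, hGH⟩
  · intro K _ _ m H A C X₀ r j hne hC hA n G hG
    exact from_growth he.bound K H A C X₀ r j hne hC hA hG
  · intro m r j n H G hG hj
    have h2 : ∀ (K : Type) [Field K] [NumberField K], Asymptotic K H → Asymptotic K G :=
      fun K _ _ hH => from_asymp he.bound K hG hj hH
    refine ⟨h2, ?_⟩
    rintro ⟨K₀, i1, i2, hK₀⟩
    exact ⟨K₀, i1, i2, fun K _ _ _ => h2 K (hK₀ K)⟩
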